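import Mathlib

/-!
An averaging lemma for commuting projections.
-/

set_option autoImplicit false

namespace Pool.Agent.W_bda8f3_h78

/-- A subspace stable under a projection splits. -/
theorem Averaging_split {k W : Type} [Field k] [AddCommGroup W] [Module k W]
    [FiniteDimensional k W] {P : W →ₗ[k] W} (hid : P ∘ₗ P = P) (U : Submodule k W)
    (hU : ∀ v ∈ U, P v ∈ U) :
    Module.finrank k U = Module.finrank k (U ⊓ LinearMap.range P : Submodule k W) +
      Module.finrank k (U ⊓ LinearMap.ker P : Submodule k W) := by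
  have hPP : ∀ v, P (P v) = P v := fun v => congrArg (fun f => f v) hid
  rw [← Submodule.finrank_sup_add_finrank_inf_eq]
  have h1 : (U ⊓ LinearMap.range P) ⊔ (U ⊓ LinearMap.ker P) = U := by
    apply le_antisymm
    · exact sup_le inf_le_left inf_le_left
    · intro v hv
      have h2 : v = P v + (v - P v) := by abel
      rw [h2]
      apply Submodule.add_mem_sup
      · exact ⟨hU v hv, v, rfl⟩
      · refine ⟨U.sub_mem hv (hU v hv), ?_⟩
        show P (v - P v) = 0
        rw [map_sub, hPP, sub_self]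
  have h2 : (U ⊓ LinearMap.range P) ⊓ (U ⊓ LinearMap.ker P) = ⊥ := by
    rw [eq_bot_iff]
    rintro v ⟨⟨_, w, rfl⟩, _, h3⟩
    have h4 : P (P w) = 0 := h3
    rw [hPP] at h4
    rw [h4]
    exact Submodule.zero_mem _
  rw [h1, h2, finrank_bot, add_zero]

/-- The weighted form of the averaging lemma. -/
theorem Averaging_weighted {k W ι : Type} [Field k] [AddCommGroup W] [Module k W]
    [FiniteDimensional k W] [DecidableEq ι] (P : ι → (W →ₗ[k] W)) (hid : ∀ i, P i ∘ₗ P i = P i)
    (hcomm : ∀ i j, P i ∘ₗ P j = P j ∘ₗ P i) (s : Finset ι) :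
    ∀ V : Submodule k W, (∀ i, ∀ v ∈ V, P i v ∈ V) → 0 < Module.finrank k V →
    ∃ J ⊆ s, (∃ v ∈ V, v ≠ 0 ∧ ∀ i ∈ J, P i v = 0) ∧
      ∑ i ∈ s, Module.finrank k (V ⊓ LinearMap.ker (P i) : Submodule k W) ≤
        J.card * Module.finrank k V := by
  have hc : ∀ i j v, P i (P j v) = P j (P i v) := fun i j v =>
    congrArg (fun f => f v) (hcomm i j)
  induction s using Finset.induction_on with
  | empty =>
    intro V _ hV
    have h1 : V ≠ ⊥ := by
      intro h0
      rw [h0, finrank_bot] at hV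
      exact lt_irrefl _ hV
    obtain ⟨v, hv, hv0⟩ := Submodule.exists_mem_ne_zero_of_ne_bot h1
    exact ⟨∅, subset_rfl, ⟨v, hv, hv0, by simp⟩, by simp⟩
  | insert p s hp ih =>
    intro V hV hVpos
    set V0 : Submodule k W := V ⊓ LinearMap.range (P p) with hV0
    set V1 : Submodule k W := V ⊓ LinearMap.ker (P p) with hV1
    have hsplit : Module.finrank k V = Module.finrank k V0 + Module.finrank k V1 :=
      Averaging_split (hid p) V (hV p)
    have hst0 : ∀ i, ∀ v ∈ V0, P i v ∈ V0 := by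
      rintro i v ⟨hv, w, rfl⟩
      refine ⟨hV i _ hv, P i w, ?_⟩
      rw [hc]
    have hst1 : ∀ i, ∀ v ∈ V1, P i v ∈ V1 := by
      rintro i v ⟨hv, hw⟩
      refine ⟨hV i _ hv, ?_⟩
      show P p (P i v) = 0
      have hw' : P p v = 0 := hw
      rw [hc, hw', map_zero]
    have hsum : ∀ i, Module.finrank k (V ⊓ LinearMap.ker (P i) : Submodule k W) =
        Module.finrank k (V0 ⊓ LinearMap.ker (P i) : Submodule k W) +
        Module.finrank k (V1 ⊓ LinearMap.ker (P i) : Submodule k W) := by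
      intro i
      rw [Averaging_split (hid p) (V ⊓ LinearMap.ker (P i)) ?_]
      · rw [hV0, hV1, inf_right_comm, inf_right_comm V (LinearMap.ker (P i)) (LinearMap.ker (P p))]
      · rintro v ⟨hv, hw⟩
        refine ⟨hV p v hv, ?_⟩
        show P i (P p v) = 0
        have hw' : P i v = 0 := hw
        rw [hc, hw', map_zero]
    have htot : ∑ i ∈ insert p s, Module.finrank k (V ⊓ LinearMap.ker (P i) : Submodule k W) =
        Module.finrank k V1 +
        (∑ i ∈ s, Module.finrank k (V0 ⊓ LinearMap.ker (P i) : Submodule k W) +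
        ∑ i ∈ s, Module.finrank k (V1 ⊓ LinearMap.ker (P i) : Submodule k W)) := by
      rw [Finset.sum_insert hp, ← Finset.sum_add_distrib]
      congr 1
      exact Finset.sum_congr rfl fun i _ => hsum i
    set a0 := ∑ i ∈ s, Module.finrank k (V0 ⊓ LinearMap.ker (P i) : Submodule k W) with ha0
    set a1 := ∑ i ∈ s, Module.finrank k (V1 ⊓ LinearMap.ker (P i) : Submodule k W) with ha1
    set d0 := Module.finrank k V0 with hd0
    set d1 := Module.finrank k V1 with hd1
    have hz : ∀ U : Submodule k W, Module.finrank k U = 0 →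
        ∑ i ∈ s, Module.finrank k (U ⊓ LinearMap.ker (P i) : Submodule k W) = 0 := by
      intro U hU
      apply Finset.sum_eq_zero
      intro i _
      have h1 : Module.finrank k (U ⊓ LinearMap.ker (P i) : Submodule k W) ≤
        Module.finrank k U := Submodule.finrank_mono inf_le_left
      omega
    have hleft : ∀ j0 : ℕ, (∃ J ⊆ s, (∃ v ∈ V0, v ≠ 0 ∧ ∀ i ∈ J, P i v = 0) ∧ J.card = j0) →
        d1 + (a0 + a1) ≤ j0 * (d0 + d1) →
        ∃ J ⊆ insert p s, (∃ v ∈ V, v ≠ 0 ∧ ∀ i ∈ J, P i v = 0) ∧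
          d1 + (a0 + a1) ≤ J.card * (d0 + d1) := by
      rintro j0 ⟨J, hJ, ⟨v, hv, hv0, hJv⟩, hc0⟩ hle
      exact ⟨J, hJ.trans (Finset.subset_insert _ _), ⟨v, hv.1, hv0, hJv⟩, by rw [hc0]; exact hle⟩
    have hright : ∀ j1 : ℕ, (∃ J ⊆ s, (∃ v ∈ V1, v ≠ 0 ∧ ∀ i ∈ J, P i v = 0) ∧ J.card = j1) →
        d1 + (a0 + a1) ≤ (j1 + 1) * (d0 + d1) →
        ∃ J ⊆ insert p s, (∃ v ∈ V, v ≠ 0 ∧ ∀ i ∈ J, P i v = 0) ∧
          d1 + (a0 + a1) ≤ J.card * (d0 + d1) := by
      rintro j1 ⟨J, hJ, ⟨v, hv, hv0, hJv⟩, hc0⟩ hle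
      refine ⟨insert p J, Finset.insert_subset_insert _ hJ, ⟨v, hv.1, hv0, ?_⟩, ?_⟩
      · intro i hi
        rcases Finset.mem_insert.1 hi with h1 | h1
        · rw [h1]; exact hv.2
        · exact hJv i h1
      · rw [Finset.card_insert_of_notMem (fun h1 => hp (hJ h1)), hc0]
        exact hle
    rw [htot, hsplit]
    rcases Nat.eq_zero_or_pos d0 with h0 | h0
    · have hd1pos : 0 < d1 := by omega
      obtain ⟨J, hJ, hv, hle⟩ := ih V1 hst1 hd1pos
      replace hle : a1 ≤ J.card * d1 := hle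
      have ha00 : a0 = 0 := hz V0 h0
      refine hright J.card ⟨J, hJ, hv, rfl⟩ ?_
      rw [h0, ha00]
      have : (J.card + 1) * (0 + d1) = J.card * d1 + d1 := by ring
      omega
    · rcases Nat.eq_zero_or_pos d1 with h1 | h1
      · obtain ⟨J, hJ, hv, hle⟩ := ih V0 hst0 h0
        replace hle : a0 ≤ J.card * d0 := hle
        have ha10 : a1 = 0 := hz V1 h1
        refine hleft J.card ⟨J, hJ, hv, rfl⟩ ?_
        rw [h1, ha10]
        simpa using hle
      · obtain ⟨J0, hJ0, hv0, hle0⟩ := ih V0 hst0 h0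
        obtain ⟨J1, hJ1, hv1, hle1⟩ := ih V1 hst1 h1
        replace hle0 : a0 ≤ J0.card * d0 := hle0
        replace hle1 : a1 ≤ J1.card * d1 := hle1
        rcases le_or_gt (J1.card + 1) J0.card with h2 | h2
        · refine hleft J0.card ⟨J0, hJ0, hv0, rfl⟩ ?_
          have h3 : (J1.card + 1) * d1 ≤ J0.card * d1 := Nat.mul_le_mul_right _ h2
          have h4 : J0.card * (d0 + d1) = J0.card * d0 + J0.card * d1 := by ring
          have h5 : (J1.card + 1) * d1 = J1.card * d1 + d1 := by ring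
          omega
        · refine hright J1.card ⟨J1, hJ1, hv1, rfl⟩ ?_
          have h3 : J0.card * d0 ≤ (J1.card + 1) * d0 := Nat.mul_le_mul_right _ h2.le
          have h4 : (J1.card + 1) * (d0 + d1) = (J1.card + 1) * d0 + (J1.card * d1 + d1) := by ring
          omega

/-- Averaging. Commuting projections `P i` of a space `W` with `2 * rank (P i) ≤ dim W`, `i : Fin n`:
there is a set `J` of indices with `2 * card J ≥ n` and `∏ i ∈ J, (1 - P i) ≠ 0`, where
`Q J` is this product. Weighted form for the induction on `n`: for every subspace `V ≠ 0`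
stable under all `P i` there are `J` and `v ∈ V`, `v ≠ 0`, with `P i v = 0` for all `i ∈ J` and
`card J * dim V ≥ ∑ i, (dim V - dim (P i V))`. Step: `V = P V ⊕ (1 - P) V` for the last
projection `P`, dimensions `d0 + d1`; the numbers `∑ i < n` of the two parts are `a0, a1` with
`a0 + a1 = a`; the part `0` (if `d0 > 0`) gives `card J ≥ a0 / d0`, the part `1`
(if `d1 > 0`) gives `card J ≥ a1 / d1 + 1`, and one of them is at least
`(a0 + a1 + d1) / (d0 + d1)`. -/
theorem averaging {k W : Type} [Field k] [AddCommGroup W] [Module k W] [FiniteDimensional k W]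
    (n : ℕ) (P : Fin n → (W →ₗ[k] W)) (hid : ∀ i, P i ∘ₗ P i = P i)
    (hcomm : ∀ i j, P i ∘ₗ P j = P j ∘ₗ P i)
    (hrank : ∀ i, 2 * Module.finrank k (LinearMap.range (P i)) ≤ Module.finrank k W)
    (hW : 0 < Module.finrank k W) :
    ∃ J : Finset (Fin n), n ≤ 2 * J.card ∧ ∃ v : W, v ≠ 0 ∧ ∀ i ∈ J, P i v = 0 := by
  obtain ⟨J, _, ⟨v, _, hv0, hJ⟩, hle⟩ := Averaging_weighted P hid hcomm Finset.univ ⊤
    (fun _ _ _ => trivial) (by rw [finrank_top]; exact hW)
  refine ⟨J, ?_, v, hv0, hJ⟩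
  rw [finrank_top] at hle
  have h1 : ∀ i ∈ Finset.univ, Module.finrank k W ≤
      2 * Module.finrank k ((⊤ : Submodule k W) ⊓ LinearMap.ker (P i) : Submodule k W) := by
    intro i _
    rw [top_inf_eq]
    have h2 := LinearMap.finrank_range_add_finrank_ker (P i)
    have h3 := hrank i
    omega
  have h2 := Finset.card_nsmul_le_sum Finset.univ _ _ h1
  rw [Finset.card_univ, Fintype.card_fin, smul_eq_mul, ← Finset.mul_sum] at h2
  have h3 : n * Module.finrank k W ≤ (2 * J.card) * Module.finrank k W := by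
    calc n * Module.finrank k W ≤ _ := h2
      _ ≤ 2 * (J.card * Module.finrank k W) := Nat.mul_le_mul_left 2 hle
      _ = _ := by ring
  exact Nat.le_of_mul_le_mul_right h3 hW

end Pool.Agent.W_bda8f3_h78
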