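import Pool.Agent.W_bda8f3_h78.Defs

/-!
Averages of translations over a subgroup.
-/

set_option autoImplicit false

namespace Pool.Agent.W_bda8f3_h78

variable {k H : Type} [Field k] [Group H]

/-- The average of the translations by the elements of a subgroup `L` of order prime to the
characteristic. -/
noncomputable def avg (k : Type) {H : Type} [Field k] [Group H] (L : Subgroup H) [Fintype L] :
    (H → k) →ₗ[k] (H → k) :=
  (Nat.card L : k)⁻¹ • ∑ g : L, tr k H (g : H)

theorem AvgP_apply (L : Subgroup H) [Fintype L] (f : H → k) (x : H) :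
    avg k L f x = (Nat.card L : k)⁻¹ * ∑ g : L, f (x * (g : H)) := by
  unfold avg
  rw [LinearMap.smul_apply, LinearMap.sum_apply, Pi.smul_apply, Finset.sum_apply, smul_eq_mul]
  rfl

theorem AvgP_fixed (L : Subgroup H) [Fintype L] (hL : (Nat.card L : k) ≠ 0) {f : H → k}
    (hf : ∀ g ∈ L, tr k H g f = f) : avg k L f = f := by
  funext x
  rw [AvgP_apply]
  have h1 : ∀ g : L, f (x * (g : H)) = f x := by
    intro g
    have := congrFun (hf g g.2) x
    rwa [tr_apply] at this
  rw [Finset.sum_congr rfl (fun g _ => h1 g), Finset.sum_const, Finset.card_univ, nsmul_eq_mul,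
    ← Nat.card_eq_fintype_card, inv_mul_cancel_left₀ hL]

theorem AvgP_tr (L : Subgroup H) [Fintype L] (f : H → k) {g : H} (hg : g ∈ L) :
    tr k H g (avg k L f) = avg k L f := by
  funext x
  rw [tr_apply, AvgP_apply, AvgP_apply]
  congr 1
  refine Fintype.sum_equiv (Equiv.mulLeft (⟨g, hg⟩ : L)) _ _ ?_
  intro y
  show f (x * g * (y : H)) = f (x * ((⟨g, hg⟩ * y : L) : H))
  rw [Subgroup.coe_mul, mul_assoc]

/-- `avg` is a projection onto the functions fixed by the translations from `L`; these functions are
constant on the left cosets of `L`, so twice its rank is at most `Nat.card H` if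
`L ≠ ⊥`; it preserves invariant subspaces, and commutes with the translations by elements that
normalise `L` (in particular by elements that commute with `L`). -/
theorem avg_props [Finite H] (L : Subgroup H) [Fintype L] (hL : (Nat.card L : k) ≠ 0) :
    (avg k L) ∘ₗ (avg k L) = avg k L ∧
    (∀ f, (∀ g ∈ L, tr k H g f = f) ↔ avg k L f = f) ∧
    (L ≠ ⊥ → 2 * Module.finrank k (LinearMap.range (avg k L)) ≤ Module.finrank k (H → k)) ∧
    (∀ A : Submodule k (H → k), Inv k H A → ∀ f ∈ A, avg k L f ∈ A) ∧
    (∀ h : H, (∀ g, g ∈ L ↔ h * g * h⁻¹ ∈ L) →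
      ∀ f, avg k L (tr k H h f) = tr k H h (avg k L f)) := by
  refine ⟨?_, ?_, ?_, ?_, ?_⟩
  · apply LinearMap.ext
    intro f
    rw [LinearMap.comp_apply]
    exact AvgP_fixed L hL fun g hg => AvgP_tr L f hg
  · intro f
    refine ⟨fun hf => AvgP_fixed L hL hf, fun hf g hg => ?_⟩
    rw [← hf]
    exact AvgP_tr L f hg
  · intro hbot
    have h1 : LinearMap.range (avg k L) ≤
        LinearMap.range (LinearMap.funLeft k k (QuotientGroup.mk : H → H ⧸ L)) := by
      rintro _ ⟨f, rfl⟩
      refine ⟨fun q => avg k L f q.out, ?_⟩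
      funext x
      rw [LinearMap.funLeft_apply]
      obtain ⟨l, hl⟩ := QuotientGroup.mk_out_eq_mul L x
      rw [hl]
      have := congrFun (AvgP_tr (k := k) L f l.2) x
      rwa [tr_apply] at this
    have h2 := Submodule.finrank_mono h1
    have h3 := LinearMap.finrank_range_le (LinearMap.funLeft k k (QuotientGroup.mk : H → H ⧸ L))
    have h4 : Module.finrank k (H ⧸ L → k) = Nat.card (H ⧸ L) := by
      have : Fintype (H ⧸ L) := Fintype.ofFinite _
      rw [Module.finrank_fintype_fun_eq_card, Nat.card_eq_fintype_card]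
    have h5 : Module.finrank k (H → k) = Nat.card H := by
      have : Fintype H := Fintype.ofFinite _
      rw [Module.finrank_fintype_fun_eq_card, Nat.card_eq_fintype_card]
    have h6 := Subgroup.card_eq_card_quotient_mul_card_subgroup L
    have h7 : 2 ≤ Nat.card L := by
      have := (Subgroup.one_lt_card_iff_ne_bot L).2 hbot
      omega
    rw [h5, h6, mul_comm 2]
    exact Nat.mul_le_mul (by omega) h7
  · intro A hA f hf
    unfold avg
    rw [LinearMap.smul_apply, LinearMap.sum_apply]
    exact A.smul_mem _ (A.sum_mem fun g _ => hA g f hf)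
  · intro h hh f
    funext x
    rw [tr_apply, AvgP_apply, AvgP_apply]
    congr 1
    have hinv : ∀ g : H, g ∈ L → h⁻¹ * g * h ∈ L := by
      intro g hg
      rw [hh]
      have e : h * (h⁻¹ * g * h) * h⁻¹ = g := by group
      rw [e]
      exact hg
    refine Fintype.sum_equiv
      { toFun := fun g : L => (⟨h⁻¹ * g * h, hinv g g.2⟩ : L)
        invFun := fun g : L => (⟨h * g * h⁻¹, (hh g).1 g.2⟩ : L)
        left_inv := fun g => by
          apply Subtype.ext
          show h * (h⁻¹ * (g : H) * h) * h⁻¹ = g
          group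
        right_inv := fun g => by
          apply Subtype.ext
          show h⁻¹ * (h * (g : H) * h⁻¹) * h = g
          group } _ _ ?_
    intro y
    show f (x * (y : H) * h) = f (x * h * (h⁻¹ * (y : H) * h))
    congr 1
    group

end Pool.Agent.W_bda8f3_h78
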