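import Mathlib

/-!
The Chermak-Delgado argument.
-/

set_option autoImplicit false

namespace Pool.Agent.W_bda8f3_h78

/-- The Chermak-Delgado measure. -/
noncomputable def cdm {G : Type} [Group G] (X : Subgroup G) : ℕ :=
  Nat.card X * Nat.card (Subgroup.centralizer (X : Set G))

theorem CD_card {G : Type} [Group G] [Finite G] (X Y : Subgroup G) :
    Nat.card X * Nat.card Y ≤ Nat.card (X ⊔ Y : Subgroup G) * Nat.card (X ⊓ Y : Subgroup G) := by
  have h1 := Subgroup.relIndex_mul_relIndex (⊥ : Subgroup G) (X ⊓ Y) X bot_le inf_le_left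
  have h2 := Subgroup.relIndex_mul_relIndex (⊥ : Subgroup G) Y (X ⊔ Y) bot_le le_sup_right
  rw [Subgroup.relIndex_bot_left, Subgroup.relIndex_bot_left, Subgroup.inf_relIndex_left] at h1
  rw [Subgroup.relIndex_bot_left, Subgroup.relIndex_bot_left] at h2
  have h0 : Y.relIndex (X ⊔ Y) ≠ 0 := by
    intro h
    rw [h, mul_zero] at h2
    exact Nat.card_pos.ne h2
  have h3 : Y.relIndex X ≤ Y.relIndex (X ⊔ Y) := Subgroup.relIndex_le_of_le_right le_sup_left h0
  rw [← h1, ← h2]
  calc Nat.card (X ⊓ Y : Subgroup G) * Y.relIndex X * Nat.card Y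
      ≤ Nat.card (X ⊓ Y : Subgroup G) * Y.relIndex (X ⊔ Y) * Nat.card Y :=
        Nat.mul_le_mul_right _ (Nat.mul_le_mul_left _ h3)
    _ = _ := by ring

/-- `card X * card Y ≤ card (X ⊔ Y) * card (X ⊓ Y)`, `centralizer (X ⊔ Y) = centralizer X ⊓
centralizer Y` and `centralizer X ⊔ centralizer Y ≤ centralizer (X ⊓ Y)`. -/
theorem cdm_mul_le {G : Type} [Group G] [Finite G] (X Y : Subgroup G) :
    cdm X * cdm Y ≤ cdm (X ⊔ Y) * cdm (X ⊓ Y) := by
  have h1 := CD_card X Y
  have h2 := CD_card (Subgroup.centralizer (X : Set G)) (Subgroup.centralizer (Y : Set G))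
  have h3 : Subgroup.centralizer (X : Set G) ⊓ Subgroup.centralizer (Y : Set G) ≤
      Subgroup.centralizer ((X ⊔ Y : Subgroup G) : Set G) := by
    rw [Subgroup.le_centralizer_iff, sup_le_iff, Subgroup.le_centralizer_iff,
      Subgroup.le_centralizer_iff (H := Y)]
    exact ⟨inf_le_left, inf_le_right⟩
  have h4 : Subgroup.centralizer (X : Set G) ⊔ Subgroup.centralizer (Y : Set G) ≤
      Subgroup.centralizer ((X ⊓ Y : Subgroup G) : Set G) :=
    sup_le (Subgroup.centralizer_le (by exact_mod_cast (inf_le_left : X ⊓ Y ≤ X)))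
      (Subgroup.centralizer_le (by exact_mod_cast (inf_le_right : X ⊓ Y ≤ Y)))
  have h5 := Subgroup.card_le_of_le h3
  have h6 := Subgroup.card_le_of_le h4
  unfold cdm
  calc Nat.card X * Nat.card (Subgroup.centralizer (X : Set G)) *
        (Nat.card Y * Nat.card (Subgroup.centralizer (Y : Set G)))
      = (Nat.card X * Nat.card Y) * (Nat.card (Subgroup.centralizer (X : Set G)) *
        Nat.card (Subgroup.centralizer (Y : Set G))) := by ring
    _ ≤ (Nat.card (X ⊔ Y : Subgroup G) * Nat.card (X ⊓ Y : Subgroup G)) *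
        (Nat.card (Subgroup.centralizer (X : Set G) ⊔
          Subgroup.centralizer (Y : Set G) : Subgroup G) *
        Nat.card (Subgroup.centralizer (X : Set G) ⊓
          Subgroup.centralizer (Y : Set G) : Subgroup G)) := Nat.mul_le_mul h1 h2
    _ ≤ (Nat.card (X ⊔ Y : Subgroup G) * Nat.card (X ⊓ Y : Subgroup G)) *
        (Nat.card (Subgroup.centralizer ((X ⊓ Y : Subgroup G) : Set G)) *
        Nat.card (Subgroup.centralizer ((X ⊔ Y : Subgroup G) : Set G))) :=
        Nat.mul_le_mul_left _ (Nat.mul_le_mul h6 h5)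
    _ = _ := by ring

/-- Let `μ` be the maximum of `cdm`, and `M` a subgroup with `cdm M = μ` of minimal order. For
every `X` with `cdm X = μ` also `cdm (X ⊓ M) = μ` (`cdm_mul_le`), so `X ⊓ M = M` by
minimality. Apply this to `X = centralizer M` (`cdm (centralizer M) ≥ cdm M`): `M` is commutative;
and to the images of `M` under automorphisms: `M` is characteristic. Last,
`card G * card M ≥ cdm M ≥ cdm A ≥ (card A) ^ 2`. -/
theorem chermak_delgado {G : Type} [Group G] [Finite G] (A : Subgroup G)
    (hA : IsMulCommutative A) :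
    ∃ M : Subgroup G, M.Characteristic ∧ IsMulCommutative M ∧ M.index ≤ A.index ^ 2 := by
  obtain ⟨M0, hM0⟩ := Finite.exists_max (fun X : Subgroup G => cdm X)
  obtain ⟨M, hM, hmin⟩ := Set.exists_min_image {X : Subgroup G | ∀ Y, cdm Y ≤ cdm X}
    (fun X => Nat.card X) (Set.toFinite _) ⟨M0, hM0⟩
  have hpos : 0 < cdm M := Nat.mul_pos Nat.card_pos Nat.card_pos
  have key : ∀ X : Subgroup G, cdm M ≤ cdm X → M ≤ X := by
    intro X hX
    have h1 := cdm_mul_le X M
    have h2 := hM (X ⊔ M)
    have h3 : cdm M ≤ cdm (X ⊓ M) := by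
      have h4 : cdm M * cdm M ≤ cdm M * cdm (X ⊓ M) :=
        (Nat.mul_le_mul_right _ hX).trans (h1.trans (Nat.mul_le_mul_right _ h2))
      exact Nat.le_of_mul_le_mul_left h4 hpos
    have h5 := hmin (X ⊓ M) (fun Y => (hM Y).trans h3)
    have h6 : X ⊓ M = M := Subgroup.eq_of_le_of_card_ge inf_le_right h5
    rw [← h6]
    exact inf_le_left
  have hMC : M ≤ Subgroup.centralizer (M : Set G) := by
    apply key
    unfold cdm
    rw [mul_comm]
    refine Nat.mul_le_mul_left _ (Subgroup.card_le_of_le ?_)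
    rw [Subgroup.le_centralizer_iff]
  refine ⟨M, ?_, ?_, ?_⟩
  · rw [Subgroup.characteristic_iff_le_map]
    intro φ
    apply key
    unfold cdm
    refine Nat.mul_le_mul ?_ ?_
    · exact (Nat.card_congr (φ.subgroupMap M).toEquiv).le
    · have h1 : (Subgroup.centralizer (M : Set G)).map φ.toMonoidHom ≤
          Subgroup.centralizer ((M.map φ.toMonoidHom : Subgroup G) : Set G) := by
        rintro _ ⟨g, hg, rfl⟩
        rw [Subgroup.mem_centralizer_iff]
        rintro _ ⟨m, hm, rfl⟩
        have h2 := Subgroup.mem_centralizer_iff.1 hg m hm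
        rw [← map_mul, h2, map_mul]
      have h3 := Subgroup.card_le_of_le h1
      exact (Nat.card_congr (φ.subgroupMap (Subgroup.centralizer (M : Set G))).toEquiv).le.trans h3
  · refine ⟨⟨fun a b => ?_⟩⟩
    have h1 := Subgroup.mem_centralizer_iff.1 (hMC b.2) a.1 a.2
    exact Subtype.ext h1
  · have hAC : A ≤ Subgroup.centralizer (A : Set G) := by
      intro a ha
      rw [Subgroup.mem_centralizer_iff]
      intro b hb
      exact congrArg Subtype.val (hA.is_comm.comm (⟨b, hb⟩ : A) ⟨a, ha⟩)
    have h1 : Nat.card A * Nat.card A ≤ cdm A :=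
      Nat.mul_le_mul_left _ (Subgroup.card_le_of_le hAC)
    have h2 := hM A
    have h3 : cdm M ≤ Nat.card M * Nat.card G :=
      Nat.mul_le_mul_left _ (Subgroup.card_le_card_group _)
    have h4 := Subgroup.card_mul_index A
    have h5 := Subgroup.card_mul_index M
    have h6 : Nat.card A * Nat.card A * M.index ≤ Nat.card A * Nat.card A * A.index ^ 2 := by
      calc Nat.card A * Nat.card A * M.index ≤ Nat.card M * Nat.card G * M.index :=
            Nat.mul_le_mul_right _ (h1.trans (h2.trans h3))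
        _ = Nat.card G * (Nat.card M * M.index) := by ring
        _ = (Nat.card A * A.index) * (Nat.card A * A.index) := by rw [h5, h4]
        _ = _ := by ring
    exact Nat.le_of_mul_le_mul_left h6 (Nat.mul_pos Nat.card_pos Nat.card_pos)

end Pool.Agent.W_bda8f3_h78
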