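import Pool.Agent.W_bda8f3_h78.Defs

/-!
The number of conjugacy classes of a group of order prime to the characteristic whose simple modules
have dimension at most `b`.
-/

set_option autoImplicit false

namespace Pool.Agent.W_bda8f3_h78

open Pool.Agent.H58_bda8f3 MonoidAlgebra

variable {k Q : Type} [Field k] [Group Q]

/-- The centre of the group algebra has dimension at most the number of conjugacy classes: a
central element, as a function on `Q`, is constant on conjugacy classes
(`of g * a = a * of g`). -/
theorem finrank_center_le [Finite Q] :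
    Module.finrank k (Subalgebra.center k (MonoidAlgebra k Q)) ≤ Nat.card (ConjClasses Q) := by
  classical
  have := Fintype.ofFinite (ConjClasses Q)
  let f : Subalgebra.center k (MonoidAlgebra k Q) →ₗ[k] (ConjClasses Q → k) :=
    { toFun := fun a c => a.1.coeff (Quotient.out c)
      map_add' := fun a b => rfl
      map_smul' := fun a b => rfl }
  have hconj : ∀ a : Subalgebra.center k (MonoidAlgebra k Q), ∀ x g : Q,
      a.1.coeff (g * x * g⁻¹) = a.1.coeff x := by
    intro a x g
    have h1 := Subalgebra.mem_center_iff.mp a.2 (MonoidAlgebra.single g (1 : k))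
    have h2 := congrArg (fun z : MonoidAlgebra k Q => z.coeff (g * x)) h1
    simp only [MonoidAlgebra.coeff_single_mul_apply, MonoidAlgebra.coeff_mul_single_apply,
      one_mul, mul_one, inv_mul_cancel_left] at h2
    exact h2.symm
  have hinj : Function.Injective f := by
    rw [← LinearMap.ker_eq_bot, LinearMap.ker_eq_bot']
    intro a ha
    apply Subtype.ext
    apply MonoidAlgebra.coeff_injective
    ext x
    have h1 : IsConj (Quotient.out (ConjClasses.mk x) : Q) x := by
      apply ConjClasses.mk_eq_mk_iff_isConj.mp
      exact Quotient.out_eq (ConjClasses.mk x)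
    obtain ⟨g, hg⟩ := isConj_iff.mp h1
    have h2 := congrFun ha (ConjClasses.mk x)
    have h3 := hconj a (Quotient.out (ConjClasses.mk x)) g
    rw [hg] at h3
    rw [h3]
    exact h2
  have h1 := LinearMap.finrank_le_finrank_of_injective hinj
  rw [Module.finrank_fintype_fun_eq_card] at h1
  rwa [Nat.card_eq_fintype_card]

/-- The centre of a product of `n` matrix algebras has dimension at least `n` (scalars in every
factor). -/
theorem le_finrank_center_pi (n : ℕ) (d : Fin n → ℕ) (hd : ∀ i, NeZero (d i)) :
    n ≤ Module.finrank k (Subalgebra.center k (∀ i, Matrix (Fin (d i)) (Fin (d i)) k)) := by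
  classical
  let f : (Fin n → k) →ₗ[k] Subalgebra.center k (∀ i, Matrix (Fin (d i)) (Fin (d i)) k) :=
    { toFun := fun c => ⟨fun i => c i • (1 : Matrix (Fin (d i)) (Fin (d i)) k), by
        rw [Subalgebra.mem_center_iff]
        intro b
        funext i
        simp⟩
      map_add' := fun a b => by
        apply Subtype.ext
        funext i
        simp [add_smul]
      map_smul' := fun a b => by
        apply Subtype.ext
        funext i
        simp [mul_smul] }
  have hinj : Function.Injective f := by
    intro a b hab
    funext i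
    have h1 := congrFun (congrArg Subtype.val hab) i
    have hd' := hd i
    have h2 := congrFun (congrFun h1 (0 : Fin (d i))) (0 : Fin (d i))
    simpa [f] using h2
  have h1 := LinearMap.finrank_le_finrank_of_injective hinj
  rwa [Module.finrank_fintype_fun_eq_card, Fintype.card_fin] at h1

/-- A matrix factor `M_d(k)` of the group algebra gives a simple module of dimension `d`: the
columns `Fin d → k` (`Module.compHom` along `k[Q] → M_d(k)`; simple because the map is surjective
and `Fin d → k` is simple over the matrices). -/
theorem mem_simpleDims_of_surj (d : ℕ) (hd : NeZero d)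
    (φ : MonoidAlgebra k Q →ₐ[k] Matrix (Fin d) (Fin d) k) (hφ : Function.Surjective φ) :
    d ∈ simpleDims k Q := by
  classical
  letI : Module (MonoidAlgebra k Q) (Fin d → k) := Module.compHom (Fin d → k) φ.toRingHom
  have hsm : ∀ (a : MonoidAlgebra k Q) (v : Fin d → k), a • v = (φ a).mulVec v := fun _ _ => rfl
  haveI : IsScalarTower k (MonoidAlgebra k Q) (Fin d → k) := by
    constructor
    intro c a v
    rw [hsm, hsm, map_smul, Matrix.smul_mulVec]
  refine ⟨Fin d → k, inferInstance, inferInstance, inferInstance, inferInstance, ?_, ?_⟩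
  · rw [isSimpleModule_iff_toSpanSingleton_surjective]
    refine ⟨?_, ?_⟩
    · have : Nonempty (Fin d) := ⟨0⟩
      infer_instance
    · intro v hv w
      obtain ⟨i, hi⟩ := Function.ne_iff.mp hv
      obtain ⟨a, ha⟩ := hφ (Matrix.vecMulVec w (Pi.single i (v i)⁻¹))
      refine ⟨a, ?_⟩
      rw [LinearMap.toSpanSingleton_apply, hsm, ha]
      funext j
      have hi' : v i ≠ 0 := hi
      simp [Matrix.mulVec, dotProduct, Matrix.vecMulVec_apply, Pi.single_apply, hi']
  · rw [Module.finrank_fintype_fun_eq_card, Fintype.card_fin]

/-- Wedderburn: `k[Q]` is semisimple (Maschke), so it is a product of matrix algebras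
`M_{d i}(k)`, `i : Fin n` (`IsSemisimpleRing.exists_algEquiv_pi_matrix_of_isAlgClosed`), with
`∑ (d i)^2 = Nat.card Q`, `d i ≤ b` and `n ≤ Nat.card (ConjClasses Q)`. -/
theorem card_le_classes [Finite Q] [IsAlgClosed k] (hQ : (Nat.card Q : k) ≠ 0) {b : ℕ}
    (hb : ∀ d ∈ simpleDims k Q, d ≤ b) :
    Nat.card Q ≤ b ^ 2 * Nat.card (ConjClasses Q) := by
  classical
  have := Fintype.ofFinite Q
  haveI : NeZero (Nat.card Q : k) := ⟨hQ⟩
  haveI : IsSemisimpleRing (MonoidAlgebra k Q) := inferInstance
  haveI : FiniteDimensional k (MonoidAlgebra k Q) := inferInstance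
  obtain ⟨n, d, hd, ⟨e⟩⟩ := IsSemisimpleRing.exists_algEquiv_pi_matrix_of_isAlgClosed k
    (MonoidAlgebra k Q)
  have h1 : Module.finrank k (MonoidAlgebra k Q) = Nat.card Q := by
    rw [LinearEquiv.finrank_eq (MonoidAlgebra.coeffLinearEquiv k), Module.finrank_finsupp_self,
      Nat.card_eq_fintype_card]
  have h2 : Module.finrank k (MonoidAlgebra k Q) = ∑ i, d i * d i := by
    rw [e.toLinearEquiv.finrank_eq, Module.finrank_pi_fintype]
    apply Finset.sum_congr rfl
    intro i _
    rw [Module.finrank_matrix]
    simp
  have h3 : ∀ i, d i ≤ b := by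
    intro i
    apply hb
    apply mem_simpleDims_of_surj (d i) (hd i)
      ((Pi.evalAlgHom k (fun i => Matrix (Fin (d i)) (Fin (d i)) k) i).comp e.toAlgHom)
    exact (Function.surjective_eval i).comp e.surjective
  have h4 : n ≤ Nat.card (ConjClasses Q) := by
    refine (le_finrank_center_pi (k := k) n d hd).trans (le_trans ?_ (finrank_center_le (k := k)))
    let g : Subalgebra.center k (∀ i, Matrix (Fin (d i)) (Fin (d i)) k) →ₗ[k]
        Subalgebra.center k (MonoidAlgebra k Q) :=
      { toFun := fun a => ⟨e.symm a.1, by
          rw [Subalgebra.mem_center_iff]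
          intro y
          apply e.injective
          rw [map_mul, map_mul, AlgEquiv.apply_symm_apply]
          exact Subalgebra.mem_center_iff.mp a.2 (e y)⟩
        map_add' := fun a c => by
          apply Subtype.ext
          exact map_add e.symm a.1 c.1
        map_smul' := fun a c => by
          apply Subtype.ext
          exact map_smul e.symm a c.1 }
    apply LinearMap.finrank_le_finrank_of_injective (f := g)
    intro a c hac
    apply Subtype.ext
    exact e.symm.injective (congrArg Subtype.val hac)
  calc Nat.card Q = ∑ i, d i * d i := by rw [← h1, h2]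
    _ ≤ ∑ _i : Fin n, b ^ 2 := Finset.sum_le_sum fun i _ => by
        rw [pow_two]; exact Nat.mul_le_mul (h3 i) (h3 i)
    _ = n * b ^ 2 := by simp
    _ ≤ b ^ 2 * Nat.card (ConjClasses Q) := by
        rw [mul_comm]; exact Nat.mul_le_mul_left _ h4

end Pool.Agent.W_bda8f3_h78
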