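import Pool.Agent.H58_bda8f3.Final

/-!
Definitions: right translations of functions on a finite group, invariant subspaces, and chains of
invariant subspaces with small jumps.
-/

set_option autoImplicit false

namespace Pool.Agent.W_bda8f3_h78

open Pool.Agent.H58_bda8f3 MonoidAlgebra

/-- Right translation of functions, `(tr h f) x = f (x * h)`, a representation of `H`. -/
def tr (k H : Type) [Field k] [Group H] : Representation k H (H → k) where
  toFun h :=
    { toFun := fun f x => f (x * h)
      map_add' := fun _ _ => rfl
      map_smul' := fun _ _ => rfl }
  map_one' := by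
    ext f x
    simp
  map_mul' g h := by
    apply LinearMap.ext
    intro f
    funext x
    show f (x * (g * h)) = f (x * g * h)
    rw [mul_assoc]

@[simp] lemma tr_apply {k H : Type} [Field k] [Group H] (h : H) (f : H → k) (x : H) :
    tr k H h f x = f (x * h) := rfl

/-- Translation invariant subspaces. -/
def Inv (k H : Type) [Field k] [Group H] (A : Submodule k (H → k)) : Prop :=
  ∀ h : H, ∀ f ∈ A, tr k H h f ∈ A

/-- `A` is the top of a chain of invariant subspaces, starting with `0`, with jumps of dimension at
most `t`. -/
inductive Good (k H : Type) [Field k] [Group H] (t : ℕ) : Submodule k (H → k) → Prop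
  | bot : Good k H t ⊥
  | step (A B : Submodule k (H → k)) : Good k H t A → Inv k H B → A ≤ B →
      Module.finrank k B ≤ Module.finrank k A + t → Good k H t B

/-- The restriction of functions to a subgroup. -/
def res (k : Type) {H : Type} [Field k] [Group H] (Q : Subgroup H) : (H → k) →ₗ[k] (Q → k) :=
  LinearMap.funLeft k k (Subtype.val : Q → H)

end Pool.Agent.W_bda8f3_h78
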