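import Pool.Agent.W_bda8f3_h78.Defs

/-!
Commuting nonabelian subgroups force large dimension.
-/

set_option autoImplicit false

namespace Pool.Agent.W_bda8f3_h78

/-- An automorphism of finite order prime to the characteristic with only one eigenvalue is a
scalar; so a nonscalar one has two different eigenvalues. Here for an element `g` of a finite group
`H` acting on an invariant subspace `E`. (The minimal polynomial divides `X ^ n - 1`, which is
separable.) -/
theorem two_eigenvalues {k W : Type} [Field k] [IsAlgClosed k] [AddCommGroup W] [Module k W]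
    [FiniteDimensional k W] (E : Submodule k W) (g : W →ₗ[k] W) (n : ℕ) (hn : (n : k) ≠ 0)
    (hg : g ^ n = 1) (hE : ∀ v ∈ E, g v ∈ E)
    (hns : ¬ ∃ c : k, ∀ v ∈ E, g v = c • v) :
    ∃ a b : k, a ≠ b ∧ (∃ v ∈ E, v ≠ 0 ∧ g v = a • v) ∧ ∃ v ∈ E, v ≠ 0 ∧ g v = b • v := by
  classical
  have hnt : Nontrivial E := by
    by_contra h
    rw [not_nontrivial_iff_subsingleton] at h
    refine hns ⟨0, fun v hv => ?_⟩
    have h0 : (⟨v, hv⟩ : E) = 0 := Subsingleton.elim _ _
    have h1 : v = 0 := congrArg Subtype.val h0
    simp [h1]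
  let f : Module.End k E := g.restrict hE
  have hfv : ∀ v : E, ((f v : E) : W) = g v := fun v => rfl
  have hpow : ∀ (m : ℕ) (v : E), (((f ^ m) v : E) : W) = (g ^ m) v := by
    intro m
    induction m with
    | zero => intro v; rfl
    | succ m ih =>
      intro v
      rw [pow_succ, pow_succ, Module.End.mul_apply, Module.End.mul_apply, ih, hfv]
  have hfn : f ^ n = 1 := by
    apply LinearMap.ext
    intro v
    apply Subtype.ext
    rw [hpow, hg]
    rfl
  have hsq : Squarefree (Polynomial.X ^ n - 1 : Polynomial k) :=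
    (Polynomial.X_pow_sub_one_separable_iff.2 hn).squarefree
  have haev : Polynomial.aeval f (Polynomial.X ^ n - 1 : Polynomial k) = 0 := by
    simp [hfn]
  have hss : f.IsSemisimple := Module.End.isSemisimple_of_squarefree_aeval_eq_zero hsq haev
  obtain ⟨a, ha⟩ := Module.End.exists_eigenvalue f
  have hex : ∃ b, b ≠ a ∧ f.HasEigenvalue b := by
    by_contra hcon
    push Not at hcon
    have htop : ⨆ μ : k, f.eigenspace μ = ⊤ := hss.iSup_eigenspace_eq_top
    have hle : ⨆ μ : k, f.eigenspace μ ≤ f.eigenspace a := by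
      apply iSup_le
      intro μ
      by_cases hμ : μ = a
      · rw [hμ]
      · have h1 := hcon μ hμ
        have h2 : f.eigenspace μ = ⊥ := by
          by_contra h3
          exact h1 (Module.End.hasEigenvalue_iff.2 h3)
        rw [h2]
        exact bot_le
    rw [htop] at hle
    refine hns ⟨a, fun v hv => ?_⟩
    have h3 : (⟨v, hv⟩ : E) ∈ f.eigenspace a := hle Submodule.mem_top
    rw [Module.End.mem_eigenspace_iff] at h3
    exact congrArg Subtype.val h3
  obtain ⟨b, hba, hb⟩ := hex
  obtain ⟨v, hv⟩ := ha.exists_hasEigenvector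
  obtain ⟨u, hu⟩ := hb.exists_hasEigenvector
  refine ⟨a, b, hba.symm, ⟨v, v.2, ?_, ?_⟩, u, u.2, ?_, ?_⟩
  · intro h
    exact hv.2 (Subtype.ext h)
  · exact congrArg Subtype.val (hv.apply_eq_smul)
  · intro h
    exact hu.2 (Subtype.ext h)
  · exact congrArg Subtype.val (hu.apply_eq_smul)

/-- Let `ρ` be a representation of `H`, `x i, y i` commuting across different indices, and `E` a
nonzero subspace stable under all `ρ (x i), ρ (y i)` that contains no nonzero vector fixed
by the commutator subgroup of `closure {x i, y i}`, for every `i : Fin n`. Then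
`2 ^ n ≤ finrank E`. Induction on `n`, for all `E`. For the last index let
`L = closure {x n, y n}`. If every `ρ h`, `h ∈ L`, were scalar on `E`, the commutators of `L` would
act trivially on `E`, a contradiction. So some `ρ h` is not scalar on `E`, it has two different
eigenvalues `a, b` on `E` (`two_eigenvalues`), and the eigenspaces `E_a, E_b ≤ E` of `ρ h` are
nonzero, independent, stable under the `ρ (x j), ρ (y j)` with `j < n` (which commute with `ρ h`),
so `finrank E ≥ finrank E_a + finrank E_b ≥ 2 ^ (n - 1) + 2 ^ (n - 1)`. -/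
theorem doubling {k W H : Type} [Field k] [IsAlgClosed k] [AddCommGroup W] [Module k W]
    [FiniteDimensional k W] [Group H] [Finite H] (hH : (Nat.card H : k) ≠ 0)
    (ρ : Representation k H W) (n : ℕ) : ∀ (x y : Fin n → H),
    (∀ i j, i ≠ j → Commute (x i) (x j) ∧ Commute (x i) (y j) ∧ Commute (y i) (y j)) →
    ∀ E : Submodule k W, E ≠ ⊥ → (∀ i, ∀ v ∈ E, ρ (x i) v ∈ E ∧ ρ (y i) v ∈ E) →
    (∀ i, ∀ v ∈ E, (∀ g ∈ ⁅Subgroup.closure {x i, y i}, Subgroup.closure {x i, y i}⁆,
      ρ g v = v) → v = 0) → 2 ^ n ≤ Module.finrank k E := by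
  classical
  induction n with
  | zero =>
    intro x y _ E hE _ _
    rw [pow_zero]
    exact Submodule.one_le_finrank_iff.2 hE
  | succ n ih =>
    intro x y hc E hE hst hfix
    let l : Fin (n + 1) := Fin.last n
    let L : Subgroup H := Subgroup.closure {x l, y l}
    have hmulv : ∀ (g h : H) (v : W), ρ (g * h) v = ρ g (ρ h v) := by
      intro g h v
      rw [map_mul]
      rfl
    have hone : ∀ v : W, ρ 1 v = v := by
      intro v
      rw [map_one]
      rfl
    -- stability of `E` under `L`
    have hpowst : ∀ (g : H), (∀ v ∈ E, ρ g v ∈ E) → ∀ (m : ℕ) (v : W), v ∈ E →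
        ρ (g ^ m) v ∈ E := by
      intro g hg m
      induction m with
      | zero =>
        intro v hv
        rw [pow_zero, hone]
        exact hv
      | succ m ihm =>
        intro v hv
        rw [pow_succ, hmulv]
        exact ihm _ (hg v hv)
    have hLst : ∀ g ∈ L, ∀ v ∈ E, ρ g v ∈ E := by
      intro g hg
      refine Subgroup.closure_induction (p := fun g _ => ∀ v ∈ E, ρ g v ∈ E)
        ?_ ?_ ?_ ?_ hg
      · intro z hz v hv
        rcases hz with hz | hz
        · rw [hz]
          exact (hst l v hv).1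
        · rw [Set.mem_singleton_iff] at hz
          rw [hz]
          exact (hst l v hv).2
      · intro v hv
        rw [hone]
        exact hv
      · intro g h _ _ hg1 hh1 v hv
        rw [hmulv]
        exact hg1 _ (hh1 v hv)
      · intro g _ hg1 v hv
        have hinv : g⁻¹ = g ^ (orderOf g - 1) := by
          apply inv_eq_of_mul_eq_one_right
          rw [← pow_succ', Nat.sub_add_cancel (orderOf_pos g), pow_orderOf_eq_one]
        rw [hinv]
        exact hpowst g hg1 _ v hv
    -- `L` commutes with the other pairs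
    have hLc : ∀ g ∈ L, ∀ j : Fin n, Commute g (x j.castSucc) ∧ Commute g (y j.castSucc) := by
      intro g hg j
      have hne : (j.castSucc : Fin (n + 1)) ≠ l := (Fin.castSucc_lt_last j).ne
      have h1 := hc j.castSucc l hne
      have h2 := hc l j.castSucc hne.symm
      refine Subgroup.closure_induction
        (p := fun g _ => Commute g (x j.castSucc) ∧ Commute g (y j.castSucc))
        ?_ ?_ ?_ ?_ hg
      · intro z hz
        rcases hz with hz | hz
        · rw [hz]
          exact ⟨h2.1, h2.2.1⟩
        · rw [Set.mem_singleton_iff] at hz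
          rw [hz]
          exact ⟨h1.2.1.symm, h2.2.2⟩
      · exact ⟨Commute.one_left _, Commute.one_left _⟩
      · intro g h _ _ hg1 hh1
        exact ⟨hg1.1.mul_left hh1.1, hg1.2.mul_left hh1.2⟩
      · intro g _ hg1
        exact ⟨hg1.1.inv_left, hg1.2.inv_left⟩
    -- a nonscalar element
    have hex : ∃ h ∈ L, ¬ ∃ c : k, ∀ v ∈ E, ρ h v = c • v := by
      by_contra hcon
      push Not at hcon
      apply hE
      rw [Submodule.eq_bot_iff]
      intro v hv
      refine hfix l v hv ?_
      let S : Subgroup H :=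
        { carrier := {g | ∀ v ∈ E, ρ g v = v}
          mul_mem' := by
            intro g h hg hh v hv
            rw [hmulv, hh v hv, hg v hv]
          one_mem' := fun v _ => hone v
          inv_mem' := by
            intro g hg v hv
            have h1 : ρ g v = v := hg v hv
            calc ρ g⁻¹ v = ρ g⁻¹ (ρ g v) := by rw [h1]
              _ = ρ (g⁻¹ * g) v := (hmulv _ _ _).symm
              _ = v := by rw [inv_mul_cancel, hone] }
      have hle : ⁅L, L⁆ ≤ S := by
        rw [Subgroup.commutator_le]
        intro g1 h1 g2 h2 w hw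
        obtain ⟨c1, hc1⟩ := hcon g1 h1
        obtain ⟨c2, hc2⟩ := hcon g2 h2
        have e1 : ρ g1⁻¹ (c1 • w) = w := by
          rw [← hc1 w hw, ← hmulv, inv_mul_cancel, hone]
        have e2 : ρ g2⁻¹ (c2 • w) = w := by
          rw [← hc2 w hw, ← hmulv, inv_mul_cancel, hone]
        have hw2 : ρ g2⁻¹ w ∈ E := hLst _ (L.inv_mem h2) w hw
        have hw1 : ρ g1⁻¹ (ρ g2⁻¹ w) ∈ E := hLst _ (L.inv_mem h1) _ hw2
        rw [commutatorElement_def, hmulv, hmulv, hmulv, hc2 _ hw1]
        rw [map_smul]
        rw [← hmulv g1 g1⁻¹, mul_inv_cancel, hone, ← map_smul, e2]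
      intro g hg
      exact hle hg v hv
    obtain ⟨h, hhL, hns⟩ := hex
    have hpow : (ρ h) ^ (Nat.card H) = 1 := by
      rw [← map_pow, pow_card_eq_one', map_one]
    obtain ⟨a, b, hab, ⟨v, hvE, hv0, hva⟩, u, huE, hu0, hub⟩ :=
      two_eigenvalues E (ρ h) (Nat.card H) hH hpow (hLst h hhL) hns
    have key : ∀ (c : k) (w : W), w ∈ E → w ≠ 0 → ρ h w = c • w →
        2 ^ n ≤ Module.finrank k (E ⊓ Module.End.eigenspace (ρ h) c : Submodule k W) := by
      intro c w hw hw0 hwc
      refine ih (fun j => x j.castSucc) (fun j => y j.castSucc) ?_ _ ?_ ?_ ?_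
      · intro i j hij
        exact hc _ _ (fun hh => hij (Fin.castSucc_injective n hh))
      · intro hbot
        apply hw0
        have hmem : w ∈ (E ⊓ Module.End.eigenspace (ρ h) c : Submodule k W) :=
          ⟨hw, Module.End.mem_eigenspace_iff.2 hwc⟩
        rw [hbot] at hmem
        exact (Submodule.mem_bot k).1 hmem
      · intro j v hv
        have hv1 : v ∈ E := hv.1
        have hv2 : ρ h v = c • v := Module.End.mem_eigenspace_iff.1 hv.2
        obtain ⟨c1, c2⟩ := hLc h hhL j
        refine ⟨⟨(hst _ v hv1).1, Module.End.mem_eigenspace_iff.2 ?_⟩,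
          ⟨(hst _ v hv1).2, Module.End.mem_eigenspace_iff.2 ?_⟩⟩
        · rw [← hmulv, c1.eq, hmulv, hv2, map_smul]
        · rw [← hmulv, c2.eq, hmulv, hv2, map_smul]
      · intro j v hv hv2
        exact hfix _ v hv.1 hv2
    have ka := key a v hvE hv0 hva
    have kb := key b u huE hu0 hub
    have hinf : (E ⊓ Module.End.eigenspace (ρ h) a : Submodule k W) ⊓
        (E ⊓ Module.End.eigenspace (ρ h) b : Submodule k W) = ⊥ := by
      rw [Submodule.eq_bot_iff]
      intro w hw
      have h1 : ρ h w = a • w := Module.End.mem_eigenspace_iff.1 hw.1.2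
      have h2 : ρ h w = b • w := Module.End.mem_eigenspace_iff.1 hw.2.2
      have h3 : (a - b) • w = 0 := by rw [sub_smul, ← h1, ← h2, sub_self]
      rcases smul_eq_zero.1 h3 with h4 | h4
      · exact absurd (sub_eq_zero.1 h4) hab
      · exact h4
    have hsum := Submodule.finrank_sup_add_finrank_inf_eq
      (E ⊓ Module.End.eigenspace (ρ h) a : Submodule k W)
      (E ⊓ Module.End.eigenspace (ρ h) b : Submodule k W)
    rw [hinf, finrank_bot, add_zero] at hsum
    have hle : Module.finrank k ((E ⊓ Module.End.eigenspace (ρ h) a : Submodule k W) ⊔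
        (E ⊓ Module.End.eigenspace (ρ h) b : Submodule k W) : Submodule k W) ≤
        Module.finrank k E :=
      Submodule.finrank_mono (sup_le inf_le_left inf_le_left)
    rw [pow_succ]
    omega

end Pool.Agent.W_bda8f3_h78
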