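import Pool.Agent.W_bda8f3_h78.Defs

/-!
The greedy choice of commuting pairs.
-/

set_option autoImplicit false

namespace Pool.Agent.W_bda8f3_h78

variable {H : Type} [Group H]

/-- Pairs `(x i, y i)` in `Q` which do not commute, while all elements with different indices
commute. -/
def Pairs (Q : Subgroup H) (n : ℕ) (x y : Fin n → H) : Prop :=
  (∀ i, x i ∈ Q ∧ y i ∈ Q) ∧ (∀ i, ¬ Commute (x i) (y i)) ∧
    ∀ i j, i ≠ j → Commute (x i) (x j) ∧ Commute (x i) (y j) ∧ Commute (y i) (y j)

/-- Adding a pair in front of a family of pairs. -/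
theorem Greedy_cons {Q Q' : Subgroup H} {n : ℕ} {x y : H} (hx : x ∈ Q) (hy : y ∈ Q)
    (hxy : ¬ Commute x y) (hQ : Q' ≤ Q) (hc : ∀ z ∈ Q', Commute x z ∧ Commute y z)
    {u v : Fin n → H} (h : Pairs Q' n u v) :
    Pairs Q (n + 1) (Fin.cons x u) (Fin.cons y v) := by
  obtain ⟨h1, h2, h3⟩ := h
  refine ⟨fun i => ?_, fun i => ?_, fun i j hij => ?_⟩
  · refine Fin.cases ?_ (fun i => ?_) i
    · exact ⟨by simpa using hx, by simpa using hy⟩
    · exact ⟨by simpa using hQ (h1 i).1, by simpa using hQ (h1 i).2⟩
  · refine Fin.cases ?_ (fun i => ?_) i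
    · simpa using hxy
    · simpa using h2 i
  · revert hij
    refine Fin.cases ?_ (fun i => ?_) i
    · refine Fin.cases ?_ (fun j => ?_) j
      · intro h; exact absurd rfl h
      · intro _
        refine ⟨?_, ?_, ?_⟩
        · simpa using (hc _ (h1 j).1).1
        · simpa using (hc _ (h1 j).2).1
        · simpa using (hc _ (h1 j).2).2
    · refine Fin.cases ?_ (fun j => ?_) j
      · intro _
        refine ⟨?_, ?_, ?_⟩
        · simpa using (hc _ (h1 i).1).1.symm
        · simpa using (hc _ (h1 i).1).2.symm
        · simpa using (hc _ (h1 i).2).2.symm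
      · intro h
        have hij : i ≠ j := fun h' => h (by rw [h'])
        simpa using h3 i j hij

/-- Greedy choice, induction on `j`. Given `Q`, let `S` be the set of elements `x` of `Q` whose
centraliser in `Q` has index at most `c`. If the elements of `S` commute pairwise then
`A = closure S` (mapped to `H`) is commutative of index at most `c` in `Q`. Otherwise choose
`x, y ∈ S` not commuting; `Q' = centralizer of x and y in Q` has index at most `c ^ 2` in `Q`; for
`j = 0` take the pair `(x, y)`, else apply the induction hypothesis to `Q'` and either multiply the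
indices or add the pair `(x, y)` to the family (`Fin.cons`). `1 ≤ c` because an index of a subgroup
of a finite group is positive. -/
theorem greedy [Finite H] (c : ℕ)
    (hc : ∀ Q : Subgroup H,
      (Subgroup.closure {x : Q | (Subgroup.centralizer {x}).index ≤ c}).index ≤ c)
    (j : ℕ) : ∀ Q : Subgroup H,
      (∃ A : Subgroup H, A ≤ Q ∧ IsMulCommutative A ∧ A.relIndex Q ≤ c ^ (2 * j + 1)) ∨
      ∃ x y : Fin (j + 1) → H, Pairs Q (j + 1) x y := by
  have hc1 : 1 ≤ c := by
    have h := hc ⊥
    have h0 : (Subgroup.closure {x : (⊥ : Subgroup H) |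
        (Subgroup.centralizer {x}).index ≤ c}).index ≠ 0 := Subgroup.index_ne_zero_of_finite
    omega
  -- the common step
  have key : ∀ Q : Subgroup H,
      (∃ A : Subgroup H, A ≤ Q ∧ IsMulCommutative A ∧ A.relIndex Q ≤ c) ∨
      ∃ (x y : H) (Q' : Subgroup H), x ∈ Q ∧ y ∈ Q ∧ ¬ Commute x y ∧ Q' ≤ Q ∧
        (∀ z ∈ Q', Commute x z ∧ Commute y z) ∧ Q'.relIndex Q ≤ c ^ 2 := by
    intro Q
    by_cases hS : ∀ x ∈ {x : Q | (Subgroup.centralizer {x}).index ≤ c},
        ∀ y ∈ {x : Q | (Subgroup.centralizer {x}).index ≤ c}, x * y = y * x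
    · left
      refine ⟨(Subgroup.closure {x : Q | (Subgroup.centralizer {x}).index ≤ c}).map Q.subtype,
        Subgroup.map_subtype_le _, ?_, ?_⟩
      · have := Subgroup.isMulCommutative_closure hS
        infer_instance
      · have h := hc Q
        rw [Subgroup.relIndex, Subgroup.subgroupOf, Subgroup.comap_map_eq_self_of_injective
          (Subgroup.subtype_injective Q)]
        exact h
    · right
      push Not at hS
      obtain ⟨x, hx, y, hy, hxy⟩ := hS
      refine ⟨x, y, (Subgroup.centralizer {x} ⊓ Subgroup.centralizer {y}).map Q.subtype,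
        x.2, y.2, ?_, Subgroup.map_subtype_le _, ?_, ?_⟩
      · intro h
        apply hxy
        apply Subtype.ext
        exact h
      · rintro z ⟨w, hw, rfl⟩
        have hw1 : w ∈ Subgroup.centralizer {x} := hw.1
        have hw2 : w ∈ Subgroup.centralizer {y} := hw.2
        rw [Subgroup.mem_centralizer_singleton_iff] at hw1 hw2
        refine ⟨?_, ?_⟩
        · have := congrArg Q.subtype hw1
          simp only [map_mul] at this
          exact this.symm
        · have := congrArg Q.subtype hw2
          simp only [map_mul] at this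
          exact this.symm
      · rw [Subgroup.relIndex, Subgroup.subgroupOf, Subgroup.comap_map_eq_self_of_injective
          (Subgroup.subtype_injective Q)]
        refine Subgroup.index_inf_le.trans ?_
        rw [pow_two]
        exact Nat.mul_le_mul hx hy
  induction j with
  | zero =>
    intro Q
    rcases key Q with ⟨A, h1, h2, h3⟩ | ⟨x, y, Q', hx, hy, hxy, -, -, -⟩
    · exact Or.inl ⟨A, h1, h2, by simpa using h3⟩
    · refine Or.inr ⟨fun _ => x, fun _ => y, fun _ => ⟨hx, hy⟩, fun _ => hxy, ?_⟩
      intro i j hij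
      exact absurd (by apply Fin.ext; have := i.2; have := j.2; omega) hij
  | succ j ih =>
    intro Q
    rcases key Q with ⟨A, h1, h2, h3⟩ | ⟨x, y, Q', hx, hy, hxy, hQ, hcom, hind⟩
    · refine Or.inl ⟨A, h1, h2, h3.trans ?_⟩
      exact Nat.le_self_pow (by omega) c
    · rcases ih Q' with ⟨A, h1, h2, h3⟩ | ⟨u, v, huv⟩
      · refine Or.inl ⟨A, h1.trans hQ, h2, ?_⟩
        rw [← Subgroup.relIndex_mul_relIndex A Q' Q h1 hQ]
        calc A.relIndex Q' * Q'.relIndex Q ≤ c ^ (2 * j + 1) * c ^ 2 := Nat.mul_le_mul h3 hind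
          _ = c ^ (2 * (j + 1) + 1) := by rw [← pow_add]; congr 1
      · exact Or.inr ⟨_, _, Greedy_cons hx hy hxy hQ hcom huv⟩

end Pool.Agent.W_bda8f3_h78
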