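import Pool.Agent.W_bda8f3_h78.GoodB
import Pool.Agent.W_bda8f3_h78.AvgP
import Pool.Agent.W_bda8f3_h78.Greedy
import Pool.Agent.W_bda8f3_h78.Doubling
import Pool.Agent.W_bda8f3_h78.Averaging

/-!
The number of commuting noncommuting pairs is bounded by the dimensions of the simple modules.
-/

set_option autoImplicit false

namespace Pool.Agent.W_bda8f3_h78

open scoped commutatorElement

variable {k H : Type} [Field k] [Group H]

/-- The product of the complementary projections. -/
lemma FamB_proj {n : ℕ} (P : Fin n → ((H → k) →ₗ[k] (H → k)))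
    (hid : ∀ i f, P i (P i f) = P i f)
    (hcomm : ∀ i j f, P i (P j f) = P j (P i f))
    (hinv : ∀ i, ∀ A : Submodule k (H → k), Inv k H A → ∀ f ∈ A, P i f ∈ A)
    (S : Set H) (hS : ∀ i, ∀ h ∈ S, ∀ f, P i (tr k H h f) = tr k H h (P i f))
    (J : Finset (Fin n)) :
    ∃ R : (H → k) →ₗ[k] (H → k), (∀ f, R (R f) = R f) ∧ (∀ w, (∀ i ∈ J, P i w = 0) → R w = w) ∧
      (∀ A : Submodule k (H → k), Inv k H A → ∀ f ∈ A, R f ∈ A) ∧
      (∀ h ∈ S, ∀ f, R (tr k H h f) = tr k H h (R f)) ∧
      (∀ i ∈ J, ∀ f, P i (R f) = 0) ∧ ∀ i f, P i (R f) = R (P i f) := by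
  classical
  induction J using Finset.induction_on with
  | empty =>
    refine ⟨LinearMap.id, fun _ => rfl, fun _ _ => rfl, fun _ _ _ h => h, fun _ _ _ => rfl, ?_,
      fun _ _ => rfl⟩
    intro i hi
    simp at hi
  | insert a J ha ih =>
    obtain ⟨R, h1, h2, h3, h4, h5, h6⟩ := ih
    refine ⟨R ∘ₗ (LinearMap.id - P a), ?_, ?_, ?_, ?_, ?_, ?_⟩
    · intro f
      simp only [LinearMap.comp_apply, LinearMap.sub_apply, LinearMap.id_apply, map_sub, h6, h1,
        hid]
      simp
    · intro w hw
      simp only [LinearMap.comp_apply, LinearMap.sub_apply, LinearMap.id_apply]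
      rw [hw a (Finset.mem_insert_self _ _), sub_zero]
      exact h2 w (fun i hi => hw i (Finset.mem_insert_of_mem hi))
    · intro A hA f hf
      simp only [LinearMap.comp_apply, LinearMap.sub_apply, LinearMap.id_apply]
      exact h3 A hA _ (A.sub_mem hf (hinv a A hA f hf))
    · intro h hh f
      simp only [LinearMap.comp_apply, LinearMap.sub_apply, LinearMap.id_apply]
      rw [hS a h hh, ← map_sub, h4 h hh]
    · intro i hi f
      simp only [LinearMap.comp_apply, LinearMap.sub_apply, LinearMap.id_apply]
      rcases Finset.mem_insert.mp hi with rfl | hi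
      · rw [h6, map_sub, hid, sub_self, map_zero]
      · exact h5 i hi _
    · intro i f
      simp only [LinearMap.comp_apply, LinearMap.sub_apply, LinearMap.id_apply]
      rw [h6, map_sub, hcomm i a]

/-- Averages over commuting subgroups commute. -/
lemma FamB_avg_comm [Finite H] (L M : Subgroup H) [Fintype L] [Fintype M]
    (hM : (Nat.card M : k) ≠ 0) (hLM : ∀ g ∈ L, ∀ h ∈ M, Commute g h) (f : H → k) :
    avg k M (avg k L f) = avg k L (avg k M f) := by
  have h1 := (avg_props M hM).2.2.2.2
  have h2 : ∀ g : L, avg k M (tr k H (g : H) f) = tr k H (g : H) (avg k M f) := by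
    intro g
    refine h1 g ?_ f
    intro h
    constructor
    · intro hh
      rw [(hLM g g.2 h hh).eq, mul_inv_cancel_right]
      exact hh
    · intro hh
      have h3 := (hLM g g.2 _ hh).eq
      have h4 : (g : H) * h * (g : H)⁻¹ = h := by
        have : (g : H) * h = ((g : H) * h * (g : H)⁻¹) * (g : H) := by group
        rw [← h3] at this
        have h5 := mul_left_cancel this
        exact h5.symm
      rwa [h4] at hh
  have e : ∀ w : H → k, avg k L w = (Nat.card L : k)⁻¹ • ∑ g : L, tr k H (g : H) w := by
    intro w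
    simp [avg, LinearMap.smul_apply, LinearMap.sum_apply]
  rw [e f, map_smul, map_sum, e (avg k M f)]
  congr 1
  exact Finset.sum_congr rfl (fun g _ => h2 g)

/-- Let `H` have order prime to the characteristic and let the functions on `H` have a chain with
jumps at most `2 ^ β`. Then there are no `2 β + 1` commuting pairs of noncommuting elements.
Let `L i` be the commutator subgroup of `closure {x i, y i}` (not `⊥`; it is normalised by
`x i, y i` and commutes with `x j, y j`, `j ≠ i`), `P i = avg (L i)`; they commute pairwise.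
`averaging` gives `J` with `β + 1 ≤ card J` and `v ≠ 0` with `P i v = 0` for `i ∈ J`. Let
`P` be the product of the `1 - P i`, `i ∈ J` (`Finset.noncommProd`, or by induction over a list of
`J`; a projection, not zero because `P v = v`, with `P i ∘ P = 0` for `i ∈ J`, preserving
invariant subspaces and commuting with all `tr (x j), tr (y j)`). `exists_piece` gives `E ≠ ⊥` of
dimension at most `2 ^ β` stable under `tr (x j), tr (y j)`, and no nonzero vector of `E` is
fixed by `L i` for `i ∈ J`. `doubling` for the pairs with index in (a subset of `β + 1` elements of)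
`J`, enumerated by `Fin (β + 1)`, gives `2 ^ (β + 1) ≤ finrank E`, a contradiction. -/
theorem no_family [Finite H] [IsAlgClosed k] (hH : (Nat.card H : k) ≠ 0) (β : ℕ)
    (hgood : Good k H (2 ^ β) ⊤) (x y : Fin (2 * β + 1) → H)
    (hxy : Pairs ⊤ (2 * β + 1) x y) : False := by
  classical
  obtain ⟨-, hnc, hcc⟩ := hxy
  set C : Fin (2 * β + 1) → Subgroup H := fun i => Subgroup.closure {x i, y i} with hC
  set L : Fin (2 * β + 1) → Subgroup H := fun i => ⁅C i, C i⁆ with hL
  have hxC : ∀ i, x i ∈ C i := fun i => Subgroup.subset_closure (by simp)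
  have hyC : ∀ i, y i ∈ C i := fun i => Subgroup.subset_closure (by simp)
  have hLC : ∀ i, L i ≤ C i := by
    intro i
    show ⁅C i, C i⁆ ≤ C i
    rw [Subgroup.commutator_le]
    intro a ha b hb
    rw [commutatorElement_def]
    exact mul_mem (mul_mem (mul_mem ha hb) (inv_mem ha)) (inv_mem hb)
  -- elements with different indices commute
  have hcomm1 : ∀ i j, i ≠ j → ∀ a ∈ C i, ∀ b ∈ C j, Commute a b := by
    intro i j hij
    have h1 : C i ≤ Subgroup.centralizer (C j : Set H) := by
      rw [hC]
      simp only
      rw [Subgroup.closure_le, Subgroup.centralizer_closure]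
      intro a ha
      simp only [Set.mem_insert_iff, Set.mem_singleton_iff] at ha
      show a ∈ Subgroup.centralizer ({x j, y j} : Set H)
      rw [Subgroup.mem_centralizer_iff]
      intro b hb
      simp only [Set.mem_insert_iff, Set.mem_singleton_iff] at hb
      have e1 := hcc i j hij
      have e2 := hcc j i hij.symm
      rcases ha with rfl | rfl <;> rcases hb with rfl | rfl
      · exact e1.1.eq.symm
      · exact e1.2.1.eq.symm
      · exact e2.2.1.eq
      · exact e1.2.2.eq.symm
    intro a ha b hb
    exact ((Subgroup.mem_centralizer_iff.mp (h1 ha)) b hb).symm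
  have hcard : ∀ M : Subgroup H, (Nat.card M : k) ≠ 0 := by
    intro M h0
    apply hH
    rw [← M.card_mul_index, Nat.cast_mul, h0, zero_mul]
  have hLne : ∀ i, L i ≠ ⊥ := by
    intro i h0
    have h1 : ⁅x i, y i⁆ ∈ L i := Subgroup.commutator_mem_commutator (hxC i) (hyC i)
    rw [h0, Subgroup.mem_bot, commutatorElement_eq_one_iff_commute] at h1
    exact hnc i h1
  let hF : ∀ i, Fintype (L i) := fun i => Fintype.ofFinite _
  set P : Fin (2 * β + 1) → ((H → k) →ₗ[k] (H → k)) := fun i => avg k (L i) with hP
  have hprops := fun i => avg_props (k := k) (L i) (hcard (L i))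
  set S : Set H := {h | ∃ j, h = x j ∨ h = y j} with hS
  have hnorm : ∀ i, ∀ h ∈ S, ∀ g, g ∈ L i ↔ h * g * h⁻¹ ∈ L i := by
    intro i h hh
    have hmem : h ∈ Subgroup.normalizer (L i : Set H) := by
      obtain ⟨j, hj⟩ := hh
      have hhC : h ∈ C j := by
        rcases hj with rfl | rfl
        · exact hxC j
        · exact hyC j
      by_cases hij : i = j
      · subst hij
        exact (C i).self_le_normalizer_lowerCentralSeries 1 hhC
      · rw [Subgroup.mem_normalizer_iff]
        intro g
        constructor
        · intro hg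
          rw [← (hcomm1 i j hij g (hLC i hg) h hhC).eq, mul_inv_cancel_right]
          exact hg
        · intro hg
          have h3 := (hcomm1 i j hij _ (hLC i hg) h hhC).eq
          have h4 : h * g * h⁻¹ = g := by
            have : h * g = (h * g * h⁻¹) * h := by group
            rw [h3] at this
            exact (mul_left_cancel this).symm
          rwa [h4] at hg
    exact Subgroup.mem_normalizer_iff.mp hmem
  have hid : ∀ i f, P i (P i f) = P i f := fun i f => LinearMap.congr_fun (hprops i).1 f
  have hcomm : ∀ i j f, P i (P j f) = P j (P i f) := by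
    intro i j f
    by_cases hij : i = j
    · subst hij; rfl
    · exact FamB_avg_comm (L j) (L i) (hcard _)
        (fun g hg h hh => hcomm1 j i (Ne.symm hij) g (hLC j hg) h (hLC i hh)) f
  have hfin : Module.finrank k (H → k) = Nat.card H := by
    have := Fintype.ofFinite H
    rw [Module.finrank_pi, Nat.card_eq_fintype_card]
  obtain ⟨J, hJ, v, hv0, hv⟩ := averaging (2 * β + 1) P (fun i => (hprops i).1)
    (fun i j => LinearMap.ext (hcomm i j)) (fun i => (hprops i).2.2.1 (hLne i))
    (by rw [hfin]; exact Nat.card_pos)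
  obtain ⟨R, r1, r2, r3, r4, r5, -⟩ := FamB_proj P hid hcomm (fun i => (hprops i).2.2.2.1) S
    (fun i h hh => (hprops i).2.2.2.2 h (hnorm i h hh)) J
  obtain ⟨E, hE0, hEfin, hER, hEst⟩ := exists_piece hgood R (LinearMap.ext r1) (by
    intro h0
    have := r2 v hv
    rw [h0, LinearMap.zero_apply] at this
    exact hv0 this.symm) r3
  obtain ⟨J', hJ'J, hJ'card⟩ := Finset.exists_subset_card_eq (s := J) (n := β + 1) (by omega)
  let e : Fin (β + 1) ↪o Fin (2 * β + 1) := J'.orderEmbOfFin hJ'card
  have heJ : ∀ i, e i ∈ J := fun i => hJ'J (Finset.orderEmbOfFin_mem _ _ _)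
  have hdoub := doubling hH (tr k H) (β + 1) (fun i => x (e i)) (fun i => y (e i))
    (fun i j hij => hcc (e i) (e j) (fun h => hij (e.injective h))) E hE0
    (fun i w hw => ⟨hEst _ (r4 _ ⟨e i, Or.inl rfl⟩) w hw, hEst _ (r4 _ ⟨e i, Or.inr rfl⟩) w hw⟩)
    (by
      intro i w hw hfix
      have h1 : P (e i) w = w := ((hprops (e i)).2.1 w).mp hfix
      have h2 := r5 (e i) (heJ i) w
      rw [hER w hw, h1] at h2
      exact h2)
  have hlt : 2 ^ β < 2 ^ (β + 1) := Nat.pow_lt_pow_right (by norm_num) (Nat.lt_succ_self β)
  omega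

end Pool.Agent.W_bda8f3_h78
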