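import Mathlib

/-!
The derived length of a nilpotent group is logarithmic in its class.
-/

set_option autoImplicit false

namespace Pool.Agent.W_bda8f3_h78

/-- three subgroups lemma modulo a normal subgroup -/
theorem LogDer_three {G : Type} [Group G] (K : Subgroup G) [K.Normal] (H1 H2 H3 : Subgroup G)
    (h1 : ⁅⁅H2, H3⁆, H1⁆ ≤ K) (h2 : ⁅⁅H3, H1⁆, H2⁆ ≤ K) : ⁅⁅H1, H2⁆, H3⁆ ≤ K := by
  have hK : ∀ H : Subgroup G, H ≤ K ↔ H.map (QuotientGroup.mk' K) = ⊥ := by
    intro H
    rw [Subgroup.map_eq_bot_iff, QuotientGroup.ker_mk']
  rw [hK, Subgroup.map_commutator, Subgroup.map_commutator] at h1 h2 ⊢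
  exact Subgroup.commutator_commutator_eq_bot_of_rotate h1 h2

/-- With `γ i = lowerCentralSeries ⊤ i` (so `γ 0` is the whole group): `⁅γ i, γ j⁆ ≤ γ (i + j + 1)`.
Induction on `j` with the three subgroups lemma `Subgroup.commutator_commutator_eq_bot_of_rotate`
in the quotient by `γ (i + j + 1)`, or its version for `≤` (see `second_commutator_le` in
`H58_bda8f3/Main.lean`). -/
theorem commutator_lcs_le {G : Type} [Group G] (i j : ℕ) :
    ⁅(⊤ : Subgroup G).lowerCentralSeries i, (⊤ : Subgroup G).lowerCentralSeries j⁆ ≤
      (⊤ : Subgroup G).lowerCentralSeries (i + j + 1) := by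
  induction j generalizing i with
  | zero =>
    rw [Subgroup.lowerCentralSeries_zero, ← Subgroup.lowerCentralSeries_succ]
  | succ j ih =>
    rw [Subgroup.commutator_comm, Subgroup.lowerCentralSeries_succ]
    apply LogDer_three
    · rw [Subgroup.commutator_comm ⊤, ← Subgroup.lowerCentralSeries_succ]
      have := ih (i + 1)
      rwa [show i + 1 + j + 1 = i + (j + 1) + 1 by ring] at this
    · refine le_trans (Subgroup.commutator_mono (ih i) le_rfl) ?_
      rw [← Subgroup.lowerCentralSeries_succ]
      exact le_rfl

/-- `derivedSeries G i ≤ γ (2 ^ i - 1)`. -/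
theorem derivedSeries_le_lcs {G : Type} [Group G] (i : ℕ) :
    derivedSeries G i ≤ (⊤ : Subgroup G).lowerCentralSeries (2 ^ i - 1) := by
  induction i with
  | zero => simp
  | succ i ih =>
    rw [derivedSeries_succ]
    refine le_trans (Subgroup.commutator_mono ih ih) ?_
    refine le_trans (commutator_lcs_le _ _) ?_
    apply Subgroup.lowerCentralSeries_antitone
    have := Nat.one_le_two_pow (n := i)
    rw [pow_succ]
    omega

theorem LogDer_card {G : Type} [Group G] [Finite G] (hG : Group.IsNilpotent G) (n : ℕ) :
    (⊤ : Subgroup G).lowerCentralSeries n = ⊥ ∨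
      2 ^ n * Nat.card ((⊤ : Subgroup G).lowerCentralSeries n) ≤ Nat.card G := by
  induction n with
  | zero =>
    right
    rw [Subgroup.lowerCentralSeries_zero]
    simp
  | succ n ih =>
    rcases ih with h | h
    · left
      rw [eq_bot_iff, ← h]
      exact Subgroup.lowerCentralSeries_antitone _ (Nat.le_succ n)
    · by_cases heq : (⊤ : Subgroup G).lowerCentralSeries (n + 1) =
          (⊤ : Subgroup G).lowerCentralSeries n
      · left
        rw [heq]
        obtain ⟨m, hm⟩ := Subgroup.nilpotent_iff_lowerCentralSeries.mp hG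
        have hst : ∀ k, (⊤ : Subgroup G).lowerCentralSeries (n + k) =
            (⊤ : Subgroup G).lowerCentralSeries n := by
          intro k
          induction k with
          | zero => rfl
          | succ k ih => rw [← add_assoc, Subgroup.lowerCentralSeries_succ, ih,
              ← Subgroup.lowerCentralSeries_succ, heq]
        rw [eq_bot_iff, ← hm, ← hst m]
        exact Subgroup.lowerCentralSeries_antitone _ (by omega)
      · right
        have hle : (⊤ : Subgroup G).lowerCentralSeries (n + 1) ≤
            (⊤ : Subgroup G).lowerCentralSeries n :=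
          Subgroup.lowerCentralSeries_antitone _ (Nat.le_succ n)
        obtain ⟨t, ht⟩ := Subgroup.card_dvd_of_le hle
        have hne : Nat.card ((⊤ : Subgroup G).lowerCentralSeries n) ≠ 0 := Nat.card_pos.ne'
        have ht2 : 2 ≤ t := by
          by_contra hlt
          have h01 : t = 0 ∨ t = 1 := by omega
          rcases h01 with rfl | rfl
          · rw [mul_zero] at ht
            exact hne ht
          · rw [mul_one] at ht
            exact heq (Subgroup.eq_of_le_of_card_ge hle ht.le)
        calc 2 ^ (n + 1) * Nat.card ((⊤ : Subgroup G).lowerCentralSeries (n + 1))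
            = 2 ^ n * (Nat.card ((⊤ : Subgroup G).lowerCentralSeries (n + 1)) * 2) := by ring
          _ ≤ 2 ^ n * (Nat.card ((⊤ : Subgroup G).lowerCentralSeries (n + 1)) * t) := by
            gcongr
          _ = 2 ^ n * Nat.card ((⊤ : Subgroup G).lowerCentralSeries n) := by rw [← ht]
          _ ≤ Nat.card G := h

/-- A nilpotent group of order at most `2 ^ c` has `γ c = ⊥` (the series is strictly decreasing
until it reaches `⊥`, and each factor has order at least `2`), so its derived series reaches `⊥` in
`i` steps if `c < 2 ^ i`. -/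
theorem derivedSeries_eq_bot_of_card {G : Type} [Group G] [Finite G] (hG : Group.IsNilpotent G)
    {c i : ℕ} (hc : Nat.card G ≤ 2 ^ c) (hi : c < 2 ^ i) : derivedSeries G i = ⊥ := by
  have key : (⊤ : Subgroup G).lowerCentralSeries c = ⊥ := by
    rcases LogDer_card hG c with h | h
    · exact h
    · by_contra hne
      have h2 : 1 < Nat.card ((⊤ : Subgroup G).lowerCentralSeries c) := by
        rw [Subgroup.one_lt_card_iff_ne_bot]
        exact hne
      have h3 := Nat.one_le_two_pow (n := c)
      nlinarith
  rw [eq_bot_iff, ← key]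
  refine le_trans (derivedSeries_le_lcs i) ?_
  apply Subgroup.lowerCentralSeries_antitone
  omega

end Pool.Agent.W_bda8f3_h78
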