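import Pool.Agent.W_bda8f3_h78.Defs

/-!
Elements with large centralisers.
-/

set_option autoImplicit false

namespace Pool.Agent.W_bda8f3_h78

theorem SmallCl_pairs (Q : Type) [Group Q] [Fintype Q] :
    ∑ x : Q, Nat.card (Subgroup.centralizer {x}) = Nat.card (ConjClasses Q) * Nat.card Q := by
  classical
  rw [← card_comm_eq_card_conjClasses_mul_card]
  have e : {p : Q × Q // Commute p.1 p.2} ≃ (Σ x : Q, Subgroup.centralizer ({x} : Set Q)) :=
    { toFun := fun p => ⟨p.1.1, ⟨p.1.2, by
        rw [Subgroup.mem_centralizer_singleton_iff]
        exact p.2.symm.eq⟩⟩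
      invFun := fun q => ⟨(q.1, q.2.1), by
        have h := q.2.2
        rw [Subgroup.mem_centralizer_singleton_iff] at h
        exact Commute.symm h⟩
      left_inv := fun p => by simp
      right_inv := fun q => by simp }
  rw [Nat.card_congr e, Nat.card_sigma]

/-- If `Nat.card Q ≤ c * Nat.card (ConjClasses Q)` then the elements with centraliser of index at
most `2 c` generate a subgroup of index at most `2 c`. Count commuting pairs:
`∑ x, card (centralizer {x}) = card (ConjClasses Q) * card Q`
(`card_comm_eq_card_conjClasses_mul_card`), so it is at least `card Q ^ 2 / c`. The elements `x`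
with index more than `2 c` contribute less than `card Q * (card Q / (2 c))`, so the set `S` of the
others satisfies `card S * card Q ≥ card Q ^ 2 / (2 c)`; and `card S ≤ card (closure S)`. -/
theorem index_closure_le (Q : Type) [Group Q] [Finite Q] (c : ℕ)
    (hc : Nat.card Q ≤ c * Nat.card (ConjClasses Q)) :
    (Subgroup.closure {x : Q | (Subgroup.centralizer {x}).index ≤ 2 * c}).index ≤ 2 * c := by
  classical
  have : Fintype Q := Fintype.ofFinite Q
  set H := Subgroup.closure {x : Q | (Subgroup.centralizer {x}).index ≤ 2 * c} with hH
  set n := Nat.card Q with hn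
  set k := Nat.card (ConjClasses Q) with hk
  have hnpos : 0 < n := Nat.card_pos
  have hsum := SmallCl_pairs Q
  rw [← hk, ← hn] at hsum
  -- bound each term
  have hterm : ∀ x : Q, 2 * c * Nat.card (Subgroup.centralizer {x}) ≤
      (if x ∈ H then 2 * c * n else 0) + n := by
    intro x
    have hmul := Subgroup.card_mul_index (Subgroup.centralizer {x})
    rw [← hn] at hmul
    by_cases hx : (Subgroup.centralizer {x}).index ≤ 2 * c
    · have hxH : x ∈ H := Subgroup.subset_closure hx
      rw [if_pos hxH]
      have : Nat.card (Subgroup.centralizer {x}) ≤ n := by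
        have := Nat.card_le_card_of_injective (fun y : Subgroup.centralizer {x} => (y : Q))
          Subtype.val_injective
        exact this
      have := Nat.mul_le_mul_left (2 * c) this
      omega
    · have h1 : 2 * c ≤ (Subgroup.centralizer {x}).index := by omega
      have h2 := Nat.mul_le_mul_left (Nat.card (Subgroup.centralizer {x})) h1
      rw [hmul, mul_comm] at h2
      omega
  have hS : 2 * c * (k * n) ≤ Nat.card H * (2 * c * n) + n * n := by
    rw [← hsum, Finset.mul_sum]
    refine (Finset.sum_le_sum fun x _ => hterm x).trans ?_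
    rw [Finset.sum_add_distrib, Finset.sum_const, Finset.sum_ite]
    simp only [Finset.sum_const, smul_eq_mul, Finset.card_univ]
    have e1 : (Finset.univ.filter fun x => x ∈ H).card = Nat.card H := by
      rw [Nat.card_eq_fintype_card, Fintype.card_subtype]
    rw [e1, ← Nat.card_eq_fintype_card, ← hn, Nat.mul_zero, Nat.add_zero]
  have hfin : n ≤ 2 * c * Nat.card H := by
    have h1 : 2 * n * n ≤ 2 * c * (k * n) := by
      have := Nat.mul_le_mul_right (2 * n) hc
      nlinarith
    have h2 : n * n ≤ (2 * c * Nat.card H) * n := by nlinarith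
    exact Nat.le_of_mul_le_mul_right h2 hnpos
  have hmul := Subgroup.card_mul_index H
  rw [← hn] at hmul
  have hHpos : 0 < Nat.card H := Nat.card_pos
  have : Nat.card H * H.index ≤ Nat.card H * (2 * c) := by
    rw [hmul]; rw [mul_comm (Nat.card H)]; exact hfin
  exact Nat.le_of_mul_le_mul_left this hHpos

end Pool.Agent.W_bda8f3_h78
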