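import Pool.Agent.W_bda8f3_h78.FamB
import Pool.Agent.W_bda8f3_h78.SmallCl
import Pool.Agent.W_bda8f3_h78.ClassNum
import Pool.Agent.W_bda8f3_h78.CD
import Pool.Agent.W_bda8f3_h78.LogDer

/-!
Groups of order prime to the characteristic whose simple modules have dimension at most `2 ^ β`.
-/

set_option autoImplicit false

namespace Pool.Agent.W_bda8f3_h78

variable {k H : Type} [Field k] [Group H]

/-- There is a characteristic abelian subgroup of index at most `2 ^ (2 (2 β + 1) (4 β + 1))`.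
`greedy` with `c = 2 * (2 ^ β) ^ 2 = 2 ^ (2 β + 1)` (its hypothesis: `index_closure_le` with
`card_le_classes` for the subgroups `Q`, `Good.top_res`, `finrank_simple_le`), `j = 2 β` and
`Q = ⊤`; the second alternative is excluded by `no_family`; then `chermak_delgado`. -/
theorem exists_abelian [Finite H] [IsAlgClosed k] (hH : (Nat.card H : k) ≠ 0) (β : ℕ)
    (hgood : Good k H (2 ^ β) ⊤) :
    ∃ M : Subgroup H, M.Characteristic ∧ IsMulCommutative M ∧
      M.index ≤ 2 ^ (2 * (2 * β + 1) * (4 * β + 1)) := by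
  have hc : ∀ Q : Subgroup H,
      (Subgroup.closure {x : Q | (Subgroup.centralizer {x}).index ≤ 2 * (2 ^ β) ^ 2}).index ≤
        2 * (2 ^ β) ^ 2 := by
    intro Q
    apply index_closure_le
    apply card_le_classes (k := k)
    · intro h0
      apply hH
      rw [← Q.card_mul_index, Nat.cast_mul, h0, zero_mul]
    · rintro d ⟨X, _, _, _, _, hX, rfl⟩
      exact finrank_simple_le (hgood.top_res Q) X hX
  rcases greedy (2 * (2 ^ β) ^ 2) hc (2 * β) (⊤ : Subgroup H) with ⟨A, -, hA, hi⟩ | ⟨x, y, hxy⟩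
  · obtain ⟨M, h1, h2, h3⟩ := chermak_delgado A hA
    refine ⟨M, h1, h2, h3.trans ?_⟩
    rw [Subgroup.relIndex_top_right] at hi
    calc A.index ^ 2 ≤ ((2 * (2 ^ β) ^ 2) ^ (2 * (2 * β) + 1)) ^ 2 := Nat.pow_le_pow_left hi 2
      _ = 2 ^ (2 * (2 * β + 1) * (4 * β + 1)) := by
          have e : 2 * (2 ^ β) ^ 2 = 2 ^ (2 * β + 1) := by ring
          rw [e, ← pow_mul, ← pow_mul]
          congr 1
          ring
  · exact (no_family hH β hgood x y hxy).elim

/-- If moreover `H` is nilpotent, its derived length is at most `7 + 2 log₂ (β + 1)`: the quotient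
`H ⧸ M` is nilpotent of order at most `2 ^ c`, `c = 2 (2 β + 1) (4 β + 1) < 16 (β + 1) ^ 2 ≤
2 ^ (6 + 2 log₂ (β + 1))`, so `derivedSeries H (6 + ..) ≤ M` (`map_derivedSeries_le_derivedSeries`
or `derivedSeries_le_map_derivedSeries` for `QuotientGroup.mk'`), and `M` is commutative. -/
theorem derivedSeries_eq_bot_of_good [Finite H] [IsAlgClosed k] (hH : (Nat.card H : k) ≠ 0)
    (hnil : Group.IsNilpotent H) (β : ℕ) (hgood : Good k H (2 ^ β) ⊤) :
    derivedSeries H (2 * Nat.log 2 (β + 1) + 7) = ⊥ := by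
  obtain ⟨M, hM1, hM2, hM3⟩ := exists_abelian hH β hgood
  have hMn : M.Normal := inferInstance
  have hlog : β + 1 < 2 ^ (Nat.log 2 (β + 1) + 1) := Nat.lt_pow_succ_log_self (by norm_num) _
  have hc : 2 * (2 * β + 1) * (4 * β + 1) < 2 ^ (2 * Nat.log 2 (β + 1) + 6) := by
    have e : 2 ^ (2 * Nat.log 2 (β + 1) + 6) = 16 * (2 ^ (Nat.log 2 (β + 1) + 1)) ^ 2 := by ring
    rw [e]
    nlinarith
  have hq : derivedSeries (H ⧸ M) (2 * Nat.log 2 (β + 1) + 6) = ⊥ :=
    derivedSeries_eq_bot_of_card inferInstance (by rw [← Subgroup.index_eq_card]; exact hM3) hc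
  have hle : derivedSeries H (2 * Nat.log 2 (β + 1) + 6) ≤ M := by
    have h1 := map_derivedSeries_le_derivedSeries (QuotientGroup.mk' M)
      (2 * Nat.log 2 (β + 1) + 6)
    rw [hq, le_bot_iff, Subgroup.map_eq_bot_iff, QuotientGroup.ker_mk'] at h1
    exact h1
  rw [show 2 * Nat.log 2 (β + 1) + 7 = (2 * Nat.log 2 (β + 1) + 6) + 1 from rfl,
    derivedSeries_succ, eq_bot_iff]
  refine (Subgroup.commutator_mono hle hle).trans ?_
  rw [le_bot_iff, Subgroup.commutator_eq_bot_iff_le_centralizer]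
  exact Subgroup.le_centralizer_iff_isMulCommutative.2 hM2

end Pool.Agent.W_bda8f3_h78
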