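import Pool.Agent.W_bda8f3_h78.Quot
import Pool.Agent.W_bda8f3_h78.Struct

/-!
Abelian normal subgroups of small index, for normal subgroups of order prime to the characteristic.
-/

set_option autoImplicit false

namespace Pool.Agent.W_bda8f3_h78

open Pool.Agent.H58_bda8f3 MonoidAlgebra

variable {k G : Type} [Field k] [Group G]

/-- A normal subgroup `N` of order prime to the characteristic has a subgroup `M`, normal in `G`,
abelian modulo `K = kerDim k G (2 ^ s)`, of index at most `2 ^ (16 (s (m - 1) + 1) ^ 2)`.
Apply `exists_abelian` to the image of `N` in `G ⧸ K` (`quot_good`, `Good.top_res`), map the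
characteristic subgroup to `G ⧸ K` (it is normal there) and pull it back to `G`, intersected with
`N`. -/
theorem abelian_part [Finite G] [IsAlgClosed k] (N : Subgroup G) [N.Normal]
    (hN : (Nat.card N : k) ≠ 0) (s : ℕ) :
    ∃ M : Subgroup G, M.Normal ∧ M ≤ N ∧ ⁅M, M⁆ ≤ kerDim k G (2 ^ s) ∧
      M.relIndex N ≤ 2 ^ (16 * (s * ((simpleDims k G).ncard - 1) + 1) ^ 2) := by
  obtain ⟨β, hβ, hgood⟩ := quot_good (k := k) (G := G) s
  set f := QuotientGroup.mk' (kerDim k G (2 ^ s)) with hf
  have hfs : Function.Surjective f := QuotientGroup.mk'_surjective _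
  have hres := hgood.top_res (N.map f)
  have hsurj : Function.Surjective (f.subgroupMap N) := f.subgroupMap_surjective N
  have hcard : (Nat.card (N.map f) : k) ≠ 0 := by
    intro h0
    apply hN
    obtain ⟨c, hc⟩ := Subgroup.card_dvd_of_surjective (f.subgroupMap N) hsurj
    rw [hc, Nat.cast_mul, h0, zero_mul]
  obtain ⟨M0, hM0c, hM0a, hM0i⟩ := exists_abelian (k := k) (H := N.map f) hcard β hres
  have hNn : (N.map f).Normal := Subgroup.Normal.map inferInstance f hfs
  have hM1n : (M0.map (N.map f).subtype).Normal := ConjAct.normal_of_characteristic_of_normal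
  set M1 := M0.map (N.map f).subtype with hM1
  refine ⟨M1.comap f ⊓ N, inferInstance, inf_le_right, ?_, ?_⟩
  · have h1 : (⁅M1.comap f ⊓ N, M1.comap f ⊓ N⁆).map f = ⊥ := by
      rw [Subgroup.map_commutator, eq_bot_iff]
      have h2 : (M1.comap f ⊓ N).map f ≤ M1 :=
        (Subgroup.map_mono inf_le_left).trans (Subgroup.map_comap_le f M1)
      refine (Subgroup.commutator_mono h2 h2).trans ?_
      rw [hM1, ← Subgroup.map_commutator]
      have h3 : ⁅M0, M0⁆ = ⊥ := by
        rw [Subgroup.commutator_eq_bot_iff_le_centralizer]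
        exact Subgroup.le_centralizer_iff_isMulCommutative.2 hM0a
      rw [h3, Subgroup.map_bot]
    have h4 := (Subgroup.map_eq_bot_iff _).1 h1
    rw [hf, QuotientGroup.ker_mk'] at h4
    exact h4
  · rw [Subgroup.inf_relIndex_right, Subgroup.relIndex_comap]
    have h5 : M1.relIndex (N.map f) = M0.index := by
      rw [Subgroup.relIndex, hM1]
      congr 1
      ext x
      rw [Subgroup.mem_subgroupOf, Subgroup.mem_map]
      constructor
      · rintro ⟨y, hy, hyx⟩
        have : y = x := Subtype.ext hyx
        rwa [← this]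
      · intro hx
        exact ⟨x, hx, rfl⟩
    rw [h5]
    refine hM0i.trans (Nat.pow_le_pow_right (by norm_num) ?_)
    have h6 : (β + 1) ^ 2 ≤ (s * ((simpleDims k G).ncard - 1) + 1) ^ 2 :=
      Nat.pow_le_pow_left (by omega) 2
    nlinarith

end Pool.Agent.W_bda8f3_h78
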