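import Pool.Agent.W_bda8f3_h78.Quot
import Pool.Agent.W_bda8f3_h78.Struct

/-!
The nilpotent case.
-/

set_option autoImplicit false

namespace Pool.Agent.W_bda8f3_h78

open Pool.Agent.H58_bda8f3 MonoidAlgebra

variable {k G : Type} [Field k] [Group G]

theorem FinB_map_D {Q : Type} [Group Q] (f : G →* Q) (N : Subgroup G) (t : ℕ) :
    (D N t).map f = D (N.map f) t := by
  induction t with
  | zero => rfl
  | succ t ih =>
    show (⁅D N t, D N t⁆).map f = ⁅D (N.map f) t, D (N.map f) t⁆
    rw [Subgroup.map_commutator, ih]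

/-- The nilpotent case: `derivedSeries_eq_bot_of_good` for the image of `N` in `G ⧸ K`. -/
theorem D_le_kerDim [Finite G] [IsAlgClosed k] (N : Subgroup G) [N.Normal]
    (hnil : Group.IsNilpotent N) (hN : (Nat.card N : k) ≠ 0) (s : ℕ) :
    D N (2 * Nat.log 2 (s * ((simpleDims k G).ncard - 1) + 1) + 7) ≤ kerDim k G (2 ^ s) := by
  obtain ⟨β, hβ, hgood⟩ := quot_good (k := k) (G := G) s
  set f := QuotientGroup.mk' (kerDim k G (2 ^ s)) with hf
  have hres := hgood.top_res (N.map f)
  have hsurj : Function.Surjective (f.subgroupMap N) := f.subgroupMap_surjective N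
  have hnil' : Group.IsNilpotent (N.map f) := Group.nilpotent_of_surjective _ hsurj
  have hcard : (Nat.card (N.map f) : k) ≠ 0 := by
    intro h0
    apply hN
    obtain ⟨c, hc⟩ := Subgroup.card_dvd_of_surjective (f.subgroupMap N) hsurj
    rw [hc, Nat.cast_mul, h0, zero_mul]
  have h1 := derivedSeries_eq_bot_of_good (k := k) (H := N.map f) hcard hnil' β hres
  have h2 : D (N.map f) (2 * Nat.log 2 (β + 1) + 7) = ⊥ := by
    rw [← D_map, h1, Subgroup.map_bot]
  rw [← FinB_map_D] at h2
  have h3 : D N (2 * Nat.log 2 (β + 1) + 7) ≤ kerDim k G (2 ^ s) := by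
    have h4 := (Subgroup.map_eq_bot_iff _).1 h2
    rw [hf, QuotientGroup.ker_mk'] at h4
    exact h4
  refine le_trans (D_antitone N ?_) h3
  have h5 : Nat.log 2 (β + 1) ≤ Nat.log 2 (s * ((simpleDims k G).ncard - 1) + 1) :=
    Nat.log_mono_right (by omega)
  omega

end Pool.Agent.W_bda8f3_h78
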