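import Pool.Agent.W_bda8f3_h78.QuotA

/-!
The dimensions above `2 ^ s`.
-/

set_option autoImplicit false

namespace Pool.Agent.W_bda8f3_h78

open Pool.Agent.H58_bda8f3 MonoidAlgebra

variable {k G : Type} [Field k] [Group G]

/-- number of elements of `simpleDims k G` in `(a, d]` -/
noncomputable def FinC_cnt (k G : Type) [Field k] [Group G] (a d : ℕ) : ℕ :=
  (simpleDims k G ∩ Set.Ioc a d).ncard

lemma FinC_cnt_succ [Finite G] (a d : ℕ) (hd : a ≤ d) (h : d + 1 ∈ simpleDims k G) :
    FinC_cnt k G a (d + 1) = FinC_cnt k G a d + 1 := by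
  unfold FinC_cnt
  have : simpleDims k G ∩ Set.Ioc a (d + 1) = insert (d + 1) (simpleDims k G ∩ Set.Ioc a d) := by
    ext x
    simp only [Set.mem_inter_iff, Set.mem_Ioc, Set.mem_insert_iff]
    constructor
    · rintro ⟨h1, h2, h3⟩
      by_cases hx : x = d + 1
      · exact Or.inl hx
      · exact Or.inr ⟨h1, h2, by omega⟩
    · rintro (rfl | ⟨h1, h2, h3⟩)
      · exact ⟨h, by omega, le_rfl⟩
      · exact ⟨h1, h2, by omega⟩
  rw [this, Set.ncard_insert_of_notMem _ (simpleDims_finite.subset Set.inter_subset_left)]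
  rintro ⟨_, _, h2⟩
  omega

lemma FinC_cnt_mono [Finite G] (a : ℕ) {d e : ℕ} (h : d ≤ e) :
    FinC_cnt k G a d ≤ FinC_cnt k G a e := by
  unfold FinC_cnt
  apply Set.ncard_le_ncard _ (simpleDims_finite.subset Set.inter_subset_left)
  exact Set.inter_subset_inter_right _ (Set.Ioc_subset_Ioc_right h)

theorem FinC_simpleTriv [IsAlgClosed k] [Finite G] (N : Subgroup G) [N.Normal]
    (hnil : ∃ c, N.lowerCentralSeries c = ⊥)
    (hN : ∀ h ∈ N, ∃ n : ℕ, (n : k) ≠ 0 ∧ h ^ n = 1) (a r : ℕ)
    (hr : D N r ≤ kerDim k G a) (d : ℕ) (hd : a ≤ d) :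
    SimpleTriv k (D N (r + 2 * FinC_cnt k G a d)) (d + 1) := by
  induction d, hd using Nat.le_induction with
  | base =>
    intro X _ _ _ _ hX hlt h hh x
    have h1 : h ∈ kerDim k G a := hr (D_antitone N (Nat.le_add_right r _) hh)
    exact h1 X hX (by omega) x
  | succ d hd ih =>
    intro X _ _ _ _ hX hlt
    have hfd := simple_fd (k := k) (G := G) X hX
    have := hfd.1
    by_cases h1 : Module.finrank k X < d + 1
    · have h2 := ih X hX h1
      intro h hh x
      refine h2 h (D_antitone N ?_ hh) x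
      have := FinC_cnt_mono (k := k) (G := G) a (Nat.le_add_right d 1)
      omega
    · have h2 : Module.finrank k X = d + 1 := by omega
      have hmem : d + 1 ∈ simpleDims k G :=
        ⟨X, inferInstance, inferInstance, inferInstance, inferInstance, hX, h2⟩
      rw [FinC_cnt_succ a d hd hmem]
      have he : r + 2 * (FinC_cnt k G a d + 1) = (r + 2 * FinC_cnt k G a d) + 1 + 1 := by omega
      rw [he]
      exact step (D N (r + 2 * FinC_cnt k G a d)) (D_nil N hnil _)
        (fun h hh => hN h (D_antitone N (Nat.zero_le _) hh)) (d + 1) ih X h2.le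

/-- Continue with `step` for the dimensions above `2 ^ s`: by induction on `d ≥ 2 ^ s`,
`D N (r + 2 c)` acts trivially on all simple modules of dimension at most `d`, where `c` is the
number of elements of `simpleDims k G` in `(2 ^ s, d]` (compare `simpleTriv_D` and `D_eq_bot` in
`H58_bda8f3/Final.lean`). -/
theorem D_eq_bot_of_le_kerDim [Finite G] [IsAlgClosed k] (N : Subgroup G) [N.Normal]
    (hnil : Group.IsNilpotent N) (hN : (Nat.card N : k) ≠ 0) (s r : ℕ)
    (hr : D N r ≤ kerDim k G (2 ^ s)) :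
    D N (r + 2 * (simpleDims k G ∩ Set.Ioi (2 ^ s)).ncard) = ⊥ := by
  have hnil' := (Subgroup.isNilpotent_iff_lowerCentralSeries N).mp hnil
  have hN' : ∀ h ∈ N, ∃ n : ℕ, (n : k) ≠ 0 ∧ h ^ n = 1 := by
    intro h hh
    refine ⟨Nat.card N, hN, ?_⟩
    have := pow_card_eq_one' (x := (⟨h, hh⟩ : N))
    exact congrArg Subtype.val this
  set e := Module.finrank k (MonoidAlgebra k G) with he
  have h1 := FinC_simpleTriv N hnil' hN' (2 ^ s) r hr (max e (2 ^ s)) (le_max_right _ _)
  have h2 : FinC_cnt k G (2 ^ s) (max e (2 ^ s)) =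
      (simpleDims k G ∩ Set.Ioi (2 ^ s)).ncard := by
    unfold FinC_cnt
    congr 1
    ext x
    simp only [Set.mem_inter_iff, Set.mem_Ioc, Set.mem_Ioi]
    constructor
    · rintro ⟨h1, h2, _⟩
      exact ⟨h1, h2⟩
    · rintro ⟨h1, h2⟩
      exact ⟨h1, h2, le_trans (simpleDims_subset h1).2 (le_max_left _ _)⟩
  rw [h2] at h1
  have h3 := triv_of_finrank_lt (D N (r + 2 * (simpleDims k G ∩ Set.Ioi (2 ^ s)).ncard))
    (fun h hh => hN' h (D_antitone N (Nat.zero_le _) hh)) (max e (2 ^ s) + 1) h1 e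
    (MonoidAlgebra k G) le_rfl (Nat.lt_succ_of_le (le_max_left _ _))
  rw [eq_bot_iff]
  intro h hh
  have h4 := h3 h hh 1
  rw [smul_eq_mul, mul_one] at h4
  rw [Subgroup.mem_bot]
  exact MonoidAlgebra.of_injective (h4.trans (map_one _).symm)

end Pool.Agent.W_bda8f3_h78
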