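import Pool.Agent.W_bda8f3_h78.FinA
import Pool.Agent.W_bda8f3_h78.FinB
import Pool.Agent.W_bda8f3_h78.FinC

/-!
Assembly of the theorem on the quotient by the largest normal `p`-subgroup.
-/

set_option autoImplicit false

namespace Pool.Agent.W_bda8f3_h78

open Pool.Agent.H58_bda8f3 MonoidAlgebra

theorem ncard_quot_le {k G : Type} [Field k] [Group G] [Finite G] (O : Subgroup G) [O.Normal] :
    (simpleDims k (G ⧸ O)).ncard ≤ (simpleDims k G).ncard :=
  Set.ncard_le_ncard (simpleDims_quotient (k := k) O) simpleDims_finite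

theorem few_degrees (p : ℕ) [Fact p.Prime] (G : Type) [Group G] [Finite G] (k : Type) [Field k]
    [IsAlgClosed k] [CharP k p] (O : Subgroup G) [O.Normal] (hO : IsPGroup p O)
    (hOmax : ∀ Q : Subgroup G, Q.Normal → IsPGroup p Q → Q ≤ O) (s : ℕ) :
      (∀ N : Subgroup (G ⧸ O), N.Normal → ¬ p ∣ Nat.card N →
        ∃ M : Subgroup (G ⧸ O), M.Normal ∧ M ≤ N ∧ ⁅M, M⁆ ≤ kerDim k (G ⧸ O) (2 ^ s) ∧
          M.relIndex N ≤ 2 ^ (16 * (s * ((simpleDims k G).ncard - 1) + 1) ^ 2)) ∧
      ∀ N : Subgroup (G ⧸ O), N.Normal → Group.IsNilpotent N →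
        (derivedSeries N (2 * Nat.log 2 (s * ((simpleDims k G).ncard - 1) + 1) + 7)).map
            N.subtype ≤ kerDim k (G ⧸ O) (2 ^ s) ∧
        derivedSeries N (2 * (simpleDims k G ∩ Set.Ioi (2 ^ s)).ncard +
          2 * Nat.log 2 (s * ((simpleDims k G).ncard - 1) + 1) + 7) = ⊥ := by
  have hq := ncard_quot_le (k := k) O
  have hmono : s * ((simpleDims k (G ⧸ O)).ncard - 1) + 1 ≤
      s * ((simpleDims k G).ncard - 1) + 1 :=
    Nat.add_le_add_right (Nat.mul_le_mul_left _ (Nat.sub_le_sub_right hq 1)) 1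
  have hcast : ∀ N : Subgroup (G ⧸ O), ¬ p ∣ Nat.card N → (Nat.card N : k) ≠ 0 := by
    intro N hN
    rw [Ne, CharP.cast_eq_zero_iff k p]
    exact hN
  refine ⟨?_, ?_⟩
  · intro N hNn hN
    obtain ⟨M, h1, h2, h3, h4⟩ := abelian_part (k := k) N (hcast N hN) s
    refine ⟨M, h1, h2, h3, h4.trans ?_⟩
    exact Nat.pow_le_pow_right (by norm_num)
      (Nat.mul_le_mul_left _ (Nat.pow_le_pow_left hmono 2))
  · intro N hNn hnil
    have hO' : ∀ Q : Subgroup (G ⧸ O), Q.Normal → IsPGroup p Q → Q = ⊥ := by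
      intro Q hQ hQp
      have h1 := hOmax (Q.comap (QuotientGroup.mk' O)) inferInstance
        (hQp.comap_of_ker_isPGroup _ (by rw [QuotientGroup.ker_mk']; exact hO))
      rw [eq_bot_iff]
      intro q hq
      obtain ⟨g, rfl⟩ := QuotientGroup.mk'_surjective O q
      have h2 : g ∈ O := h1 hq
      rw [Subgroup.mem_bot]
      exact (QuotientGroup.eq_one_iff g).mpr h2
    have hN := hcast N (not_dvd_card (p := p) N hnil hO')
    have hlog : Nat.log 2 (s * ((simpleDims k (G ⧸ O)).ncard - 1) + 1) ≤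
        Nat.log 2 (s * ((simpleDims k G).ncard - 1) + 1) := Nat.log_mono_right hmono
    have h1 := D_le_kerDim (k := k) N hnil hN s
    have h2 := D_eq_bot_of_le_kerDim (k := k) N hnil hN s _ h1
    refine ⟨?_, ?_⟩
    · rw [D_map]
      exact (D_antitone N (by omega)).trans h1
    · have h3 : (simpleDims k (G ⧸ O) ∩ Set.Ioi (2 ^ s)).ncard ≤
          (simpleDims k G ∩ Set.Ioi (2 ^ s)).ncard :=
        Set.ncard_le_ncard (Set.inter_subset_inter_left _ (simpleDims_quotient (k := k) O))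
          (simpleDims_finite.inter_of_left _)
      have h4 : D N (2 * (simpleDims k G ∩ Set.Ioi (2 ^ s)).ncard +
          2 * Nat.log 2 (s * ((simpleDims k G).ncard - 1) + 1) + 7) = ⊥ := by
        rw [eq_bot_iff, ← h2]
        exact D_antitone N (by omega)
      rw [← D_map, Subgroup.map_eq_bot_iff, Subgroup.ker_subtype, le_bot_iff] at h4
      exact h4

end Pool.Agent.W_bda8f3_h78
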