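import Pool.Agent.W_bda8f3_h78.GapA0

/-!
The refinement lemma and the multiplication lemma for the gap theorem.
-/

set_option autoImplicit false

namespace Pool.Agent.W_bda8f3_h78

open Pool.Agent.H58_bda8f3 MonoidAlgebra

variable {k H : Type} [Field k] [Group H]

/-- Refinement. Strong induction on `finrank B - finrank A`. If `A = B` nothing to do; otherwise
choose an invariant `C` with `A < C ≤ B` of minimal dimension, then
`d = finrank C - finrank A ∈ simpleDims k H` by `sub_mem_simpleDims`, `d ≤ x * t`, so `d ≤ t` by
`hgap`, so `C` is good, and the induction hypothesis applies to `C ≤ B`. -/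
theorem Good.refine [Finite H] {t x : ℕ} (hgap : ∀ d ∈ simpleDims k H, d ≤ x * t → d ≤ t)
    {A B : Submodule k (H → k)} (hA : Good k H t A) (hB : Inv k H B) (hAB : A ≤ B)
    (hfin : Module.finrank k B ≤ Module.finrank k A + x * t) : Good k H t B := by
  induction h : Module.finrank k B - Module.finrank k A using Nat.strong_induction_on
    generalizing A with
  | _ n ih =>
    rcases eq_or_lt_of_le hAB with heq | hlt
    · rwa [← heq]
    obtain ⟨C, ⟨hC, hAC, hCB⟩, hmin⟩ := WellFounded.has_min
      (wellFounded_lt (α := Submodule k (H → k)))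
      {C : Submodule k (H → k) | Inv k H C ∧ A < C ∧ C ≤ B} ⟨B, hB, hlt, le_refl _⟩
    have h1 : Module.finrank k A < Module.finrank k C := Submodule.finrank_lt_finrank_of_lt hAC
    have h2 : Module.finrank k C ≤ Module.finrank k B := Submodule.finrank_mono hCB
    have hd := sub_mem_simpleDims hA.inv hC hAC (by
      intro D hD hAD hDC
      rcases eq_or_lt_of_le hAD with h3 | h3
      · exact Or.inl h3.symm
      · right
        by_contra hne
        exact hmin D ⟨hD, h3, hDC.trans hCB⟩ (lt_of_le_of_ne hDC hne))
    have h4 := hgap _ hd (by omega)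
    exact ih _ (by omega) (Good.step A C hA hC hAC.le (by omega)) hCB (by omega) rfl

/-- The product of two subspaces of the algebra `H → k` (pointwise multiplication;
`Submodule.mul`): dimension of the product. -/
theorem finrank_mul_le [Finite H] (F C : Submodule k (H → k)) :
    Module.finrank k (F * C : Submodule k (H → k)) ≤ Module.finrank k F * Module.finrank k C := by
  rw [← Submodule.mulMap_range, ← Module.finrank_tensorProduct]
  exact LinearMap.finrank_range_le _

theorem Inv.mul {F A : Submodule k (H → k)} (hF : Inv k H F) (hA : Inv k H A) :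
    Inv k H (F * A) := by
  intro h f hf
  refine Submodule.mul_induction_on hf ?_ ?_
  · intro u hu v hv
    exact Submodule.mul_mem_mul (hF h u hu) (hA h v hv)
  · intro u v hu hv
    rw [map_add]
    exact Submodule.add_mem _ hu hv

/-- Induction on the chain of `A`: for a step `C ≤ D`, `D = C ⊔ C'` with
`finrank C' = finrank D - finrank C`, `F * D = F * C ⊔ F * C'`, so the jump is at most
`x * t`, and `Good.refine`. -/
theorem Good.mul [Finite H] {t x : ℕ} (hgap : ∀ d ∈ simpleDims k H, d ≤ x * t → d ≤ t)
    {F A : Submodule k (H → k)} (hF : Inv k H F) (hFx : Module.finrank k F ≤ x)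
    (hA : Good k H t A) : Good k H t (F * A) := by
  induction hA with
  | bot =>
    rw [Submodule.mul_bot]
    exact Good.bot
  | step A B hA hB hAB hfin ih =>
    obtain ⟨C, hC⟩ := Submodule.exists_isCompl A
    have e1 : A ⊔ C ⊓ B = B := by
      rw [← sup_inf_assoc_of_le C hAB, hC.sup_eq_top, top_inf_eq]
    have e2 : A ⊓ (C ⊓ B) = ⊥ := by
      rw [← inf_assoc, hC.inf_eq_bot, bot_inf_eq]
    have e3 := Submodule.finrank_sup_add_finrank_inf_eq A (C ⊓ B)
    rw [e1, e2, finrank_bot] at e3
    have e4 : F * B = F * A ⊔ F * (C ⊓ B) := by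
      rw [← Submodule.mul_sup, e1]
    have e5 := Submodule.finrank_add_le_finrank_add_finrank (F * A) (F * (C ⊓ B))
    have e6 := finrank_mul_le F (C ⊓ B)
    have e7 : Module.finrank k F * Module.finrank k (C ⊓ B : Submodule k (H → k)) ≤ x * t :=
      Nat.mul_le_mul hFx (by omega)
    refine Good.refine hgap ih (Inv.mul hF hB) (mul_le_mul_right hAB F) ?_
    rw [e4]
    exact e5.trans (by omega)

end Pool.Agent.W_bda8f3_h78
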