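import Pool.Agent.W_bda8f3_h78.GoodA

/-!
Simple subquotients of the space of functions.
-/

set_option autoImplicit false

namespace Pool.Agent.W_bda8f3_h78

open Pool.Agent.H58_bda8f3 MonoidAlgebra

variable {k H : Type} [Field k] [Group H]

/-- the `k[H]`-submodule of the functions given by an invariant subspace -/
noncomputable def GapA0_Y {A : Submodule k (H → k)} (hA : Inv k H A) :
    Submodule (MonoidAlgebra k H) (tr k H).asModule :=
  MonoidAlgebra.submoduleOfSMulMem (A.comap (tr k H).asModuleEquiv.toLinearMap) (by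
    intro g v hv
    obtain ⟨u, rfl⟩ := (tr k H).asModuleEquiv.symm.surjective v
    rw [← Representation.asModuleEquiv_symm_map_rho]
    have h1 : u ∈ A := by
      have : (tr k H).asModuleEquiv ((tr k H).asModuleEquiv.symm u) ∈ A := hv
      rwa [LinearEquiv.apply_symm_apply] at this
    show (tr k H).asModuleEquiv ((tr k H).asModuleEquiv.symm (tr k H g u)) ∈ A
    rw [LinearEquiv.apply_symm_apply]
    exact hA g u h1)

theorem GapA0_mem {A : Submodule k (H → k)} (hA : Inv k H A) (v : (tr k H).asModule) :
    v ∈ GapA0_Y hA ↔ (tr k H).asModuleEquiv v ∈ A := Iff.rfl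

theorem GapA0_finrank {A : Submodule k (H → k)} (hA : Inv k H A) :
    Module.finrank k (GapA0_Y hA) = Module.finrank k A := by
  refine LinearEquiv.finrank_eq (LinearEquiv.ofSubmodules (tr k H).asModuleEquiv
    ((GapA0_Y hA).restrictScalars k) A ?_)
  ext u
  constructor
  · rintro ⟨v, hv, rfl⟩
    exact hv
  · intro hu
    refine ⟨(tr k H).asModuleEquiv.symm u, ?_, ?_⟩
    · show (tr k H).asModuleEquiv ((tr k H).asModuleEquiv.symm u) ∈ A
      rw [LinearEquiv.apply_symm_apply]
      exact hu
    · exact LinearEquiv.apply_symm_apply _ _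

/-- the invariant subspace of a `k[H]`-submodule -/
theorem GapA0_inv (D : Submodule (MonoidAlgebra k H) (tr k H).asModule) :
    Inv k H ((D.restrictScalars k).map (tr k H).asModuleEquiv.toLinearMap) := by
  rintro g f ⟨v, hv, rfl⟩
  refine ⟨of k H g • v, D.smul_mem _ hv, ?_⟩
  obtain ⟨u, rfl⟩ := (tr k H).asModuleEquiv.symm.surjective v
  rw [← Representation.asModuleEquiv_symm_map_rho]
  show (tr k H).asModuleEquiv ((tr k H).asModuleEquiv.symm (tr k H g u)) =
    tr k H g ((tr k H).asModuleEquiv ((tr k H).asModuleEquiv.symm u))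
  rw [LinearEquiv.apply_symm_apply, LinearEquiv.apply_symm_apply]

/-- A simple subquotient of the functions is a simple module: if `A < C` are invariant and no
invariant subspace lies strictly between, then `finrank C - finrank A` is the dimension of a simple
`k[H]`-module. (`(tr k H).asModule`, submodules of it by `MonoidAlgebra.submoduleOfSMulMem`, see
`triv_perm` in `H58_bda8f3/Basic.lean`; the module is `C ⧸ A` , e.g.
`↥C' ⧸ (A'.comap C'.subtype)` for the corresponding submodules `A' ≤ C'` over `k[H]`; or
`(⊤ ⧸ A')`'s submodule `C'.map A'.mkQ`.) -/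
theorem sub_mem_simpleDims [Finite H] {A C : Submodule k (H → k)} (hA : Inv k H A)
    (hC : Inv k H C) (hAC : A < C)
    (hmin : ∀ D : Submodule k (H → k), Inv k H D → A ≤ D → D ≤ C → D = A ∨ D = C) :
    Module.finrank k C - Module.finrank k A ∈ simpleDims k H := by
  have hle : GapA0_Y hA ≤ GapA0_Y hC := fun v hv => hAC.le hv
  have hne : GapA0_Y hA ≠ GapA0_Y hC := by
    intro heq
    obtain ⟨u, hu, hu'⟩ := Set.exists_of_ssubset (show (A : Set (H → k)) ⊂ C from hAC)
    apply hu'
    have h1 : (tr k H).asModuleEquiv.symm u ∈ GapA0_Y hC := by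
      rw [GapA0_mem, LinearEquiv.apply_symm_apply]
      exact hu
    rw [← heq, GapA0_mem, LinearEquiv.apply_symm_apply] at h1
    exact h1
  have hcov : GapA0_Y hA ⋖ GapA0_Y hC := by
    refine ⟨lt_of_le_of_ne hle hne, ?_⟩
    intro D h1 h2
    rcases hmin _ (GapA0_inv D) (by
        intro u hu
        refine ⟨(tr k H).asModuleEquiv.symm u, h1.le ?_, LinearEquiv.apply_symm_apply _ _⟩
        rw [GapA0_mem, LinearEquiv.apply_symm_apply]
        exact hu) (by
        rintro u ⟨v, hv, rfl⟩
        exact h2.le hv) with h | h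
    · apply h1.not_ge
      intro v hv
      rw [GapA0_mem, ← h]
      exact ⟨v, hv, rfl⟩
    · apply h2.not_ge
      intro v hv
      rw [GapA0_mem, ← h] at hv
      obtain ⟨w, hw, hwv⟩ := hv
      have : w = v := (tr k H).asModuleEquiv.injective hwv
      rw [← this]
      exact hw
  have hs := (covBy_iff_quot_is_simple hle).1 hcov
  refine ⟨_, inferInstance, inferInstance, inferInstance, inferInstance, hs, ?_⟩
  have : FiniteDimensional k (tr k H).asModule := Module.Finite.equiv (tr k H).asModuleEquiv.symm
  have : FiniteDimensional k (GapA0_Y hC) :=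
    inferInstanceAs (FiniteDimensional k ((GapA0_Y hC).restrictScalars k))
  have e1 : Module.finrank k ((GapA0_Y hA).comap (GapA0_Y hC).subtype) =
      Module.finrank k (GapA0_Y hA) :=
    ((Submodule.comapSubtypeEquivOfLe hle).restrictScalars k).finrank_eq
  rw [← GapA0_finrank hA, ← GapA0_finrank hC, ← e1]
  exact Submodule.finrank_quotient _

end Pool.Agent.W_bda8f3_h78
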