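import Pool.Agent.W_bda8f3_h78.GapA

/-!
The gap theorem.
-/

set_option autoImplicit false

namespace Pool.Agent.W_bda8f3_h78

open Pool.Agent.H58_bda8f3 MonoidAlgebra

variable {k H : Type} [Field k] [Group H]

/-- A subalgebra of the functions on a finite set that separates points is everything: for
`a ≠ b` it contains a function with value `1` at `a` and `0` at `b`; multiply over all `b ≠ a`. -/
theorem subalgebra_eq_top [Finite H] (S : Subalgebra k (H → k))
    (hsep : ∀ a b : H, a ≠ b → ∃ f ∈ S, f a ≠ f b) : S = ⊤ := by
  classical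
  have := Fintype.ofFinite H
  have h1 : ∀ a b : H, a ≠ b → ∃ f ∈ S, f a = 1 ∧ f b = 0 := by
    intro a b hab
    obtain ⟨f, hf, hne⟩ := hsep a b hab
    refine ⟨(f a - f b)⁻¹ • (f - algebraMap k (H → k) (f b)),
      S.smul_mem (S.sub_mem hf (S.algebraMap_mem _)) _, ?_, ?_⟩
    · show (f a - f b)⁻¹ * (f a - f b) = 1
      exact inv_mul_cancel₀ (sub_ne_zero.2 hne)
    · show (f a - f b)⁻¹ * (f b - f b) = 0
      rw [sub_self, mul_zero]
  choose! e he using h1
  have h2 : ∀ a : H, (Pi.single a (1 : k) : H → k) ∈ S := by
    intro a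
    have e1 : (Pi.single a (1 : k) : H → k) = ∏ b ∈ Finset.univ.erase a, e a b := by
      funext c
      rw [Finset.prod_apply]
      by_cases hc : c = a
      · subst hc
        rw [Pi.single_eq_same]
        exact (Finset.prod_eq_one fun b hb => (he c b (Finset.ne_of_mem_erase hb).symm).2.1).symm
      · rw [Pi.single_eq_of_ne hc]
        exact (Finset.prod_eq_zero (f := fun b => e a b c)
          (Finset.mem_erase.2 ⟨hc, Finset.mem_univ c⟩) (he a c (Ne.symm hc)).2.2).symm
    rw [e1]
    exact S.prod_mem fun b hb => (he a b (Finset.ne_of_mem_erase hb).symm).1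
  rw [eq_top_iff]
  intro f _
  have e2 : f = ∑ a, f a • (Pi.single a (1 : k) : H → k) := by
    funext c
    rw [Finset.sum_apply]
    simp [Pi.single_apply]
  rw [e2]
  exact S.sum_mem fun a _ => S.smul_mem (h2 a) _

/-- The coefficient space of a module: the functions `x ↦ φ (of x • v)`, `v : V`. It is invariant,
of dimension at most `finrank V`. -/
theorem exists_coeff (V : Type) [AddCommGroup V] [Module k V] [Module (MonoidAlgebra k H) V]
    [IsScalarTower k (MonoidAlgebra k H) V] [FiniteDimensional k V] (φ : V →ₗ[k] k) :
    ∃ F : Submodule k (H → k), Inv k H F ∧ Module.finrank k F ≤ Module.finrank k V ∧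
      ∀ v : V, (fun x : H => φ (of k H x • v)) ∈ F := by
  let T : V →ₗ[k] (H → k) := LinearMap.pi fun x => φ.comp (act k V x)
  refine ⟨LinearMap.range T, ?_, LinearMap.finrank_range_le T, ?_⟩
  · rintro h _ ⟨v, rfl⟩
    refine ⟨of k H h • v, ?_⟩
    funext x
    show φ (of k H x • of k H h • v) = φ (of k H (x * h) • v)
    rw [of_mul_smul]
  · intro v
    exact ⟨v, rfl⟩

/-- **Gap theorem.** If the simple modules of dimension at most `x` are together faithful, and no
simple module has its dimension in `(t, x t]`, then all simple modules have dimension at most `t`;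
here in the form that the space of all functions has a chain with jumps at most `t`.
Let `M` be the largest good subspace (`exists_max_good`). It contains the constant function `1`
(the span of `1` is invariant of dimension at most `1 ≤ t`). For every coefficient space
`F` of a simple module of dimension at most `x`, `F * M` is good (`Good.mul`), so
`F * M ≤ M`. The functions `f` with `f * M ≤ M` form a subalgebra `S`; it separates points:
for `a ≠ b` there are a simple `V` of dimension at most `x` and `v` with
`of (b⁻¹ * a) • v ≠ v`, so `of a • v ≠ of b • v` and a functional `φ` separates them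
(`Module.exists_dual_forall_apply_ne_zero`-like, or `Module.forall_dual_apply_eq_zero_iff`).
So `S = ⊤`, and `f = f * 1 ∈ M` for all `f`. -/
theorem gap [Finite H] {t x : ℕ} (ht : 1 ≤ t)
    (hgap : ∀ d ∈ simpleDims k H, d ≤ x * t → d ≤ t)
    (hsep : ∀ h : H, h ≠ 1 → ∃ (V : Type) (_ : AddCommGroup V) (_ : Module k V)
      (_ : Module (MonoidAlgebra k H) V) (_ : IsScalarTower k (MonoidAlgebra k H) V),
      IsSimpleModule (MonoidAlgebra k H) V ∧ Module.finrank k V ≤ x ∧
        ∃ v : V, of k H h • v ≠ v) : Good k H t ⊤ := by
  obtain ⟨M, hM, hmax⟩ := exists_max_good k H t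
  have h1 : (1 : H → k) ∈ M := by
    refine hmax (Submodule.span k {1}) ?_ (Submodule.mem_span_singleton_self 1)
    refine Good.step ⊥ _ Good.bot ?_ bot_le ?_
    · intro h f hf
      obtain ⟨c, rfl⟩ := Submodule.mem_span_singleton.1 hf
      exact Submodule.mem_span_singleton.2 ⟨c, rfl⟩
    · have h2 : Module.finrank k (Submodule.span k ({1} : Set (H → k))) ≤ 1 := by
        simpa using finrank_span_le_card (R := k) ({1} : Set (H → k))
      omega
  let S : Subalgebra k (H → k) :=
    { carrier := {f | ∀ m ∈ M, f * m ∈ M}
      mul_mem' := by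
        intro f g hf hg m hm
        rw [mul_assoc]
        exact hf _ (hg m hm)
      add_mem' := by
        intro f g hf hg m hm
        rw [add_mul]
        exact M.add_mem (hf m hm) (hg m hm)
      algebraMap_mem' := by
        intro c m hm
        rw [← Algebra.smul_def]
        exact M.smul_mem c hm }
  have hS : S = ⊤ := by
    refine subalgebra_eq_top S ?_
    intro a b hab
    have hne : b⁻¹ * a ≠ 1 := by
      intro h
      exact hab (by rw [inv_mul_eq_one] at h; exact h.symm)
    obtain ⟨V, i1, i2, i3, i4, hV, hx, v, hv⟩ := hsep _ hne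
    have hfd := (simple_fd (k := k) (G := H) V hV).1
    have hne2 : of k H a • v - of k H b • v ≠ 0 := by
      intro h
      rw [sub_eq_zero] at h
      apply hv
      rw [of_mul_smul, h, ← of_mul_smul, inv_mul_cancel, of_one_smul]
    have hφ : ∃ φ : V →ₗ[k] k, φ (of k H a • v - of k H b • v) ≠ 0 := by
      by_contra hcon
      push Not at hcon
      exact hne2 ((Module.forall_dual_apply_eq_zero_iff k _).1 hcon)
    obtain ⟨φ, hφ⟩ := hφ
    obtain ⟨F, hF, hFd, hFm⟩ := exists_coeff (k := k) (H := H) V φ
    have hFM : F * M ≤ M := hmax _ (Good.mul hgap hF (hFd.trans hx) hM)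
    refine ⟨fun y => φ (of k H y • v), ?_, ?_⟩
    · intro m hm
      exact hFM (Submodule.mul_mem_mul (hFm v) hm)
    · intro h
      apply hφ
      rw [map_sub, sub_eq_zero]
      exact h
  have hT : M = ⊤ := by
    rw [eq_top_iff]
    intro f _
    have hf : f ∈ S := by
      rw [hS]
      exact Algebra.mem_top
    have := hf 1 h1
    rwa [mul_one] at this
  rw [← hT]
  exact hM

end Pool.Agent.W_bda8f3_h78
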