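import Pool.Agent.W_bda8f3_h78.Defs

/-!
Elementary properties of chains of invariant subspaces. Everything is finite dimensional because
`H` is finite. Dimensions: `Submodule.finrank_sup_add_finrank_inf_eq`, `Submodule.finrank_mono`.
-/

set_option autoImplicit false

namespace Pool.Agent.W_bda8f3_h78

open Pool.Agent.H58_bda8f3 MonoidAlgebra

variable {k H : Type} [Field k] [Group H]

theorem Inv.bot : Inv k H ⊥ := by
  intro h f hf
  rw [Submodule.mem_bot] at hf ⊢
  rw [hf, map_zero]

theorem Inv.sup {A B : Submodule k (H → k)} (hA : Inv k H A) (hB : Inv k H B) :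
    Inv k H (A ⊔ B) := by
  intro h f hf
  rw [Submodule.mem_sup] at hf ⊢
  obtain ⟨a, ha, b, hb, rfl⟩ := hf
  exact ⟨tr k H h a, hA h a ha, tr k H h b, hB h b hb, (map_add _ _ _).symm⟩

theorem Inv.inf {A B : Submodule k (H → k)} (hA : Inv k H A) (hB : Inv k H B) :
    Inv k H (A ⊓ B) := by
  intro h f hf
  rw [Submodule.mem_inf] at hf ⊢
  exact ⟨hA h f hf.1, hB h f hf.2⟩

theorem Good.inv {t : ℕ} {A : Submodule k (H → k)} (h : Good k H t A) : Inv k H A := by
  cases h with
  | bot => exact Inv.bot
  | step A' B h1 h2 h3 h4 => exact h2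

/-- Induction on the chain of `B`: for a step `C ≤ D` of it, `A ⊔ D = (A ⊔ C) ⊔ D` and
`(A ⊔ C) ⊓ D ≥ C`, so `finrank (A ⊔ D) ≤ finrank (A ⊔ C) + finrank D - finrank C`. -/
theorem Good.sup [Finite H] {t : ℕ} {A B : Submodule k (H → k)} (hA : Good k H t A)
    (hB : Good k H t B) : Good k H t (A ⊔ B) := by
  induction hB with
  | bot => rw [sup_bot_eq]; exact hA
  | step C D hC hD hCD hdim ih =>
    refine Good.step (A ⊔ C) (A ⊔ D) ih (Inv.sup hA.inv hD) (sup_le_sup_left hCD A) ?_
    have h1 : (A ⊔ C) ⊔ D = A ⊔ D := by rw [sup_assoc, sup_eq_right.mpr hCD]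
    have h2 := Submodule.finrank_sup_add_finrank_inf_eq (A ⊔ C) D
    rw [h1] at h2
    have h3 : Module.finrank k C ≤ Module.finrank k ((A ⊔ C) ⊓ D : Submodule k (H → k)) :=
      Submodule.finrank_mono (le_inf le_sup_right hCD)
    omega

/-- There is a largest good subspace: take one of maximal dimension and use `Good.sup`. -/
theorem exists_max_good (k H : Type) [Field k] [Group H] [Finite H] (t : ℕ) :
    ∃ M : Submodule k (H → k), Good k H t M ∧ ∀ A : Submodule k (H → k), Good k H t A → A ≤ M := by
  classical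
  have hex : ∃ n : ℕ, ∃ M : Submodule k (H → k), Good k H t M ∧ Module.finrank k M = n :=
    ⟨_, ⊥, Good.bot, rfl⟩
  have hbound : ∀ n : ℕ, (∃ M : Submodule k (H → k), Good k H t M ∧ Module.finrank k M = n) →
      n ≤ Module.finrank k (H → k) := by
    rintro n ⟨M, _, rfl⟩
    exact Submodule.finrank_le M
  have hspec := Nat.findGreatest_spec (P := fun n => ∃ M : Submodule k (H → k),
    Good k H t M ∧ Module.finrank k M = n) (hbound _ hex.choose_spec) hex.choose_spec
  obtain ⟨M, hM, hMn⟩ := hspec
  refine ⟨M, hM, ?_⟩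
  intro A hA
  have hgood := hM.sup hA
  have h1 : Module.finrank k (M ⊔ A : Submodule k (H → k)) ≤ Module.finrank k M := by
    rw [hMn]
    exact Nat.le_findGreatest (hbound _ ⟨_, hgood, rfl⟩) ⟨_, hgood, rfl⟩
  have h2 : M = M ⊔ A := Submodule.eq_of_le_of_finrank_le le_sup_left h1
  rw [h2]
  exact le_sup_right

/-- Restriction to a subgroup: push the chain forward by `res k Q`. It commutes with translations
by elements of `Q`. Jumps: if `A ≤ B` then the dimension of `B.map r` is at most
the dimension of `A.map r` plus `finrank B - finrank A` (`B = A ⊔ C` with `C` of dimension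
`finrank B - finrank A`, e.g. `Submodule.exists_isCompl` of `A` in `B`; or rank-nullity for
`r` restricted to `A` and to `B`). -/
theorem Good.map_res [Finite H] {t : ℕ} {A : Submodule k (H → k)} (hA : Good k H t A)
    (Q : Subgroup H) : Good k Q t (A.map (res k Q)) := by
  induction hA with
  | bot => rw [Submodule.map_bot]; exact Good.bot
  | step A B hA hB hAB hdim ih =>
    refine Good.step _ _ ih ?_ (Submodule.map_mono hAB) ?_
    · rintro h f hf
      obtain ⟨g, hg, rfl⟩ := Submodule.mem_map.mp hf
      refine Submodule.mem_map.mpr ⟨tr k H (h : H) g, hB _ g hg, ?_⟩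
      funext x
      rfl
    · obtain ⟨C, hC⟩ := Submodule.exists_isCompl A
      have hB1 : A ⊔ (C ⊓ B) = B := by
        rw [← sup_inf_assoc_of_le C hAB, hC.sup_eq_top, top_inf_eq]
      have hdisj : A ⊓ (C ⊓ B) = ⊥ := by
        rw [← inf_assoc, hC.inf_eq_bot, bot_inf_eq]
      have h1 := Submodule.finrank_sup_add_finrank_inf_eq A (C ⊓ B)
      rw [hB1, hdisj, finrank_bot] at h1
      have h2 : B.map (res k Q) = A.map (res k Q) ⊔ (C ⊓ B).map (res k Q) := by
        rw [← Submodule.map_sup, hB1]
      have h3 : Module.finrank k (B.map (res k Q)) ≤ Module.finrank k (A.map (res k Q)) +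
          Module.finrank k ((C ⊓ B).map (res k Q)) := by
        rw [h2]
        exact Submodule.finrank_add_le_finrank_add_finrank _ _
      have h4 : Module.finrank k ((C ⊓ B).map (res k Q)) ≤
          Module.finrank k (C ⊓ B : Submodule k (H → k)) :=
        Submodule.finrank_map_le (res k Q) (C ⊓ B)
      omega

/-- `res` is surjective (extend by zero), so the top space of a subgroup is good. -/
theorem Good.top_res [Finite H] {t : ℕ} (hA : Good k H t ⊤) (Q : Subgroup H) : Good k Q t ⊤ := by
  have h := hA.map_res Q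
  have h2 : (⊤ : Submodule k (H → k)).map (res k Q) = ⊤ := by
    rw [Submodule.map_top, LinearMap.range_eq_top]
    exact LinearMap.funLeft_surjective_of_injective k k _ Subtype.val_injective
  rw [h2] at h
  exact h

end Pool.Agent.W_bda8f3_h78
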