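import Pool.Agent.W_bda8f3_h78.GoodA

/-!
Simple modules and pieces of the top space of a chain.
-/

set_option autoImplicit false

namespace Pool.Agent.W_bda8f3_h78

open Pool.Agent.H58_bda8f3 MonoidAlgebra

variable {k H : Type} [Field k] [Group H]

/-- a `k`-subspace stable under the group elements is a submodule -/
theorem GoodB_smul_mem {X : Type} [AddCommGroup X] [Module k X] [Module (MonoidAlgebra k H) X]
    [IsScalarTower k (MonoidAlgebra k H) X] (N : Submodule k X)
    (hN : ∀ (g : H), ∀ x ∈ N, (of k H g : MonoidAlgebra k H) • x ∈ N) (a : MonoidAlgebra k H)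
    {x : X} (hx : x ∈ N) : a • x ∈ N := by
  induction a using MonoidAlgebra.induction_on with
  | of g => exact hN g x hx
  | add a b ha hb => rw [add_smul]; exact N.add_mem ha hb
  | smul r a ha => rw [smul_assoc]; exact N.smul_mem r ha

/-- the submodule of a stable subspace -/
def GoodB_sub {X : Type} [AddCommGroup X] [Module k X] [Module (MonoidAlgebra k H) X]
    [IsScalarTower k (MonoidAlgebra k H) X] (N : Submodule k X)
    (hN : ∀ (g : H), ∀ x ∈ N, (of k H g : MonoidAlgebra k H) • x ∈ N) :
    Submodule (MonoidAlgebra k H) X where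
  carrier := N
  add_mem' := fun ha hb => N.add_mem ha hb
  zero_mem' := N.zero_mem
  smul_mem' := fun a _ hx => GoodB_smul_mem N hN a hx

theorem GoodB_dichotomy {X : Type} [AddCommGroup X] [Module k X] [Module (MonoidAlgebra k H) X]
    [IsScalarTower k (MonoidAlgebra k H) X] (hX : IsSimpleModule (MonoidAlgebra k H) X)
    (N : Submodule k X)
    (hN : ∀ (g : H), ∀ x ∈ N, (of k H g : MonoidAlgebra k H) • x ∈ N) : N = ⊥ ∨ N = ⊤ := by
  rcases eq_bot_or_eq_top (GoodB_sub N hN) with h | h
  · left
    rw [Submodule.eq_bot_iff] at h ⊢
    exact h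
  · right
    rw [Submodule.eq_top_iff'] at h ⊢
    exact h

/-- If the top space has a chain with jumps at most `t` then every simple module `X` has
dimension at most `t`. Choose a nonzero linear functional `φ` on `X`; `x ↦ (h ↦ φ (of h • x))` is
`k`-linear, intertwines `of h •` with `tr h` and is injective, because its kernel is a proper
submodule of the simple module `X`. Let `S` be its range: `S` is invariant, of dimension
`finrank X`, and an invariant subspace of `S` is `⊥` or `S` (pull it back to `X`). Claim, by
induction on `Good k H t B`: `S ≤ B → finrank S ≤ t`. For a step `A ≤ B`: if `S ≤ A` use the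
induction hypothesis, otherwise `S ⊓ A = ⊥` and
`finrank S + finrank A = finrank (S ⊔ A) ≤ finrank B`. -/
theorem finrank_simple_le [Finite H] {t : ℕ} (hA : Good k H t ⊤) (X : Type) [AddCommGroup X]
    [Module k X] [Module (MonoidAlgebra k H) X] [IsScalarTower k (MonoidAlgebra k H) X]
    (hX : IsSimpleModule (MonoidAlgebra k H) X) : Module.finrank k X ≤ t := by
  classical
  have hnt : Nontrivial X := IsSimpleModule.nontrivial (MonoidAlgebra k H) X
  obtain ⟨x0, hx0⟩ := exists_ne (0 : X)
  obtain ⟨φ, hφ⟩ : ∃ φ : Module.Dual k X, φ x0 ≠ 0 := by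
    by_contra hcon
    push Not at hcon
    exact hx0 ((Module.forall_dual_apply_eq_zero_iff k x0).mp hcon)
  let T : X →ₗ[k] (H → k) :=
    { toFun := fun x h => φ ((of k H h : MonoidAlgebra k H) • x)
      map_add' := fun x y => by
        funext h
        simp only [smul_add, map_add, Pi.add_apply]
      map_smul' := fun r x => by
        funext h
        simp only [RingHom.id_apply, Pi.smul_apply]
        rw [← algebraMap_smul (MonoidAlgebra k H) r x, smul_smul, ← Algebra.commutes, mul_smul,
          algebraMap_smul, map_smul] }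
  have hTtr : ∀ (g : H) (x : X), T ((of k H g : MonoidAlgebra k H) • x) = tr k H g (T x) := by
    intro g x
    funext h
    show φ ((of k H h : MonoidAlgebra k H) • (of k H g : MonoidAlgebra k H) • x) =
      φ ((of k H (h * g) : MonoidAlgebra k H) • x)
    rw [smul_smul, ← map_mul]
  have hinj : Function.Injective T := by
    rw [← LinearMap.ker_eq_bot]
    rcases GoodB_dichotomy hX (LinearMap.ker T) (by
      intro g x hx
      rw [LinearMap.mem_ker] at hx ⊢
      rw [hTtr, hx, map_zero]) with h | h
    · exact h
    · exfalso
      have h1 : x0 ∈ LinearMap.ker T := by rw [h]; trivial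
      rw [LinearMap.mem_ker] at h1
      apply hφ
      have h2 : φ ((of k H 1 : MonoidAlgebra k H) • x0) = 0 := congrFun h1 1
      rwa [map_one, one_smul] at h2
  have hfr : Module.finrank k (LinearMap.range T) = Module.finrank k X :=
    LinearMap.finrank_range_of_inj hinj
  rw [← hfr]
  have key : ∀ B, Good k H t B → LinearMap.range T ≤ B →
      Module.finrank k (LinearMap.range T) ≤ t := by
    intro B hB
    induction hB with
    | bot =>
      intro h
      rw [le_bot_iff] at h
      rw [h, finrank_bot]
      exact Nat.zero_le _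
    | step A B hA hB hAB hfin ih =>
      intro hle
      by_cases hSA : LinearMap.range T ≤ A
      · exact ih hSA
      have hbot : LinearMap.range T ⊓ A = ⊥ := by
        rcases GoodB_dichotomy hX (A.comap T) (by
          intro g x hx
          rw [Submodule.mem_comap] at hx ⊢
          rw [hTtr]
          exact hA.inv g _ hx) with h | h
        · rw [Submodule.eq_bot_iff]
          rintro f ⟨⟨x, rfl⟩, hf⟩
          have : x ∈ A.comap T := hf
          rw [h, Submodule.mem_bot] at this
          rw [this, map_zero]
        · exfalso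
          apply hSA
          rintro f ⟨x, rfl⟩
          have : x ∈ A.comap T := by rw [h]; trivial
          exact this
      have h1 := Submodule.finrank_sup_add_finrank_inf_eq (LinearMap.range T) A
      rw [hbot, finrank_bot, add_zero] at h1
      have h2 := Submodule.finrank_mono (sup_le hle hAB)
      omega
  exact key ⊤ hA le_top

/-- A projection `P ≠ 0` of the functions that preserves all invariant subspaces has a nonzero
piece `E` of dimension at most `t` in its range, stable under all translations which commute
with `P`. Induction on `Good k H t B`: if `B.map P ≠ ⊥` the conclusion holds. For a step `A ≤ B`: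
if `A.map P ≠ ⊥` use the induction hypothesis; otherwise `E = B.map P ≤ B`, and `E ⊓ A = ⊥`
(`f = P f ∈ A.map P` for `f ∈ E ⊓ A`), so `finrank E + finrank A ≤ finrank B`. -/
theorem exists_piece [Finite H] {t : ℕ} (hA : Good k H t ⊤) (P : (H → k) →ₗ[k] (H → k))
    (hP : P ∘ₗ P = P) (hP0 : P ≠ 0)
    (hinv : ∀ A : Submodule k (H → k), Inv k H A → ∀ f ∈ A, P f ∈ A) :
    ∃ E : Submodule k (H → k), E ≠ ⊥ ∧ Module.finrank k E ≤ t ∧ (∀ f ∈ E, P f = f) ∧
      ∀ h : H, (∀ f, P (tr k H h f) = tr k H h (P f)) → ∀ f ∈ E, tr k H h f ∈ E := by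
  have hPP : ∀ f, P (P f) = P f := fun f => LinearMap.congr_fun hP f
  have key : ∀ B, Good k H t B → B.map P ≠ ⊥ →
      ∃ E : Submodule k (H → k), E ≠ ⊥ ∧ Module.finrank k E ≤ t ∧ (∀ f ∈ E, P f = f) ∧
      ∀ h : H, (∀ f, P (tr k H h f) = tr k H h (P f)) → ∀ f ∈ E, tr k H h f ∈ E := by
    intro B hB
    induction hB with
    | bot => intro h; exact absurd (Submodule.map_bot P) h
    | step A B hA hB hAB hfin ih =>
      intro hne
      by_cases hA0 : A.map P = ⊥
      · have hEB : B.map P ≤ B := by
          rintro f ⟨g, hg, rfl⟩
          exact hinv B hB g hg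
        have hbot : B.map P ⊓ A = ⊥ := by
          rw [Submodule.eq_bot_iff]
          rintro f ⟨⟨g, hg, rfl⟩, hf⟩
          have h1 : P (P g) ∈ A.map P := ⟨P g, hf, rfl⟩
          rw [hA0, Submodule.mem_bot, hPP] at h1
          exact h1
        refine ⟨B.map P, hne, ?_, ?_, ?_⟩
        · have h1 := Submodule.finrank_sup_add_finrank_inf_eq (B.map P) A
          rw [hbot, finrank_bot, add_zero] at h1
          have h2 := Submodule.finrank_mono (sup_le hEB hAB)
          omega
        · rintro f ⟨g, hg, rfl⟩
          exact hPP g
        · rintro h hcomm f ⟨g, hg, rfl⟩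
          exact ⟨tr k H h g, hB h g hg, hcomm g⟩
      · exact ih hA0
  refine key ⊤ hA ?_
  intro h
  apply hP0
  rw [Submodule.map_top, LinearMap.range_eq_bot] at h
  exact h

end Pool.Agent.W_bda8f3_h78
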