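import Pool.Agent.W_bda8f3_h78.Defs

/-!
The quotient by the kernel of all simple modules of dimension at most `x`.
-/

set_option autoImplicit false

namespace Pool.Agent.W_bda8f3_h78

open Pool.Agent.H58_bda8f3 MonoidAlgebra

variable {k G : Type} [Field k] [Group G]

/-- The elements of `G` which act trivially on all simple `k[G]`-modules of dimension at most
`x`. -/
def kerDim (k G : Type) [Field k] [Group G] (x : ℕ) : Subgroup G where
  carrier := {g | ∀ (V : Type) [AddCommGroup V] [Module k V] [Module (MonoidAlgebra k G) V]
    [IsScalarTower k (MonoidAlgebra k G) V], IsSimpleModule (MonoidAlgebra k G) V →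
    Module.finrank k V ≤ x → ∀ v : V, of k G g • v = v}
  one_mem' := fun V _ _ _ _ _ _ v => of_one_smul v
  mul_mem' := fun {a b} ha hb V _ _ _ _ h1 h2 v => by
    rw [of_mul_smul, hb V h1 h2, ha V h1 h2]
  inv_mem' := fun {a} ha V _ _ _ _ h1 h2 v => by
    have := ha V h1 h2 (of k G a⁻¹ • v)
    rw [← of_mul_smul, mul_inv_cancel, of_one_smul] at this
    exact this.symm

instance kerDim_normal (x : ℕ) : (kerDim k G x).Normal where
  conj_mem := fun n hn g V _ _ _ _ h1 h2 v => by
    rw [of_mul_smul, of_mul_smul, hn V h1 h2, ← of_mul_smul, mul_inv_cancel, of_one_smul]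

/-- Deflation. An element `≠ 1` of `G ⧸ kerDim k G x` acts nontrivially on some simple module of
dimension at most `x`. For `h = mk g` there is a simple `k[G]`-module `V` with `of g • v ≠ v`;
`kerDim` acts trivially on `V`, so the representation of `G` on `V` factors through the quotient
(`QuotientGroup.lift`), and the module of this representation of the quotient
(`Representation.asModule`) is simple: its submodules are the `k[G]`-submodules of `V`. -/
theorem exists_simple_quot (x : ℕ) (h : G ⧸ kerDim k G x) (hh : h ≠ 1) :
    ∃ (V : Type) (_ : AddCommGroup V) (_ : Module k V)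
      (_ : Module (MonoidAlgebra k (G ⧸ kerDim k G x)) V)
      (_ : IsScalarTower k (MonoidAlgebra k (G ⧸ kerDim k G x)) V),
      IsSimpleModule (MonoidAlgebra k (G ⧸ kerDim k G x)) V ∧ Module.finrank k V ≤ x ∧
        ∃ v : V, of k (G ⧸ kerDim k G x) h • v ≠ v := by
  obtain ⟨g, rfl⟩ := QuotientGroup.mk_surjective h
  have hg : g ∉ kerDim k G x := fun hg => hh ((QuotientGroup.eq_one_iff g).2 hg)
  have hg2 : ∃ (V : Type) (_ : AddCommGroup V) (_ : Module k V) (_ : Module (MonoidAlgebra k G) V)
      (_ : IsScalarTower k (MonoidAlgebra k G) V), IsSimpleModule (MonoidAlgebra k G) V ∧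
      Module.finrank k V ≤ x ∧ ∃ v : V, of k G g • v ≠ v := by
    by_contra hcon
    apply hg
    intro V _ _ _ _ h1 h2 v
    by_contra hv
    exact hcon ⟨V, inferInstance, inferInstance, inferInstance, inferInstance, h1, h2, v, hv⟩
  obtain ⟨V, _, _, _, _, hs, hd, v0, hv0⟩ := hg2
  let φ : G →* (V →ₗ[k] V) :=
    { toFun := fun g => act k V g
      map_one' := act_one k
      map_mul' := act_mul k }
  have hker : kerDim k G x ≤ φ.ker := by
    intro a ha
    rw [MonoidHom.mem_ker]
    apply LinearMap.ext
    intro v
    exact ha V hs hd v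
  let σ : Representation k (G ⧸ kerDim k G x) V := QuotientGroup.lift (kerDim k G x) φ hker
  have hσ : ∀ (a : G) (v : V), σ (a : G ⧸ kerDim k G x) v = of k G a • v := by
    intro a v
    rfl
  have hact : ∀ (a : G) (v : V), of k (G ⧸ kerDim k G x) (a : G ⧸ kerDim k G x) •
      (σ.asModuleEquiv.symm v) = σ.asModuleEquiv.symm (of k G a • v) := by
    intro a v
    rw [← hσ]
    exact (Representation.asModuleEquiv_symm_map_rho σ _ v).symm
  refine ⟨σ.asModule, inferInstance, inferInstance, inferInstance, inferInstance, ?_, ?_,
    σ.asModuleEquiv.symm v0, ?_⟩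
  · have hsim := hs
    rw [isSimpleModule_iff] at hsim ⊢
    have hnt : Nontrivial V := IsSimpleModule.nontrivial (MonoidAlgebra k G) V
    have hnt2 : Nontrivial σ.asModule := σ.asModuleEquiv.symm.injective.nontrivial
    exact
      { toNontrivial := inferInstance
        eq_bot_or_eq_top := fun Y => by
          let W0 : Submodule k V := (Y.restrictScalars k).comap σ.asModuleEquiv.symm.toLinearMap
          have hW0 : ∀ v : V, v ∈ W0 ↔ σ.asModuleEquiv.symm v ∈ Y := fun v => Iff.rfl
          let Z : Submodule (MonoidAlgebra k G) V := MonoidAlgebra.submoduleOfSMulMem W0 (by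
            intro a v hv
            rw [hW0] at hv ⊢
            rw [← hact]
            exact Y.smul_mem _ hv)
          have hZ : ∀ v : V, v ∈ Z ↔ σ.asModuleEquiv.symm v ∈ Y := fun v => Iff.rfl
          rcases hsim.eq_bot_or_eq_top Z with h1 | h1
          · left
            rw [eq_bot_iff]
            intro y hy
            obtain ⟨v, rfl⟩ := σ.asModuleEquiv.symm.surjective y
            have h2 : v ∈ Z := (hZ v).2 hy
            rw [h1, Submodule.mem_bot] at h2
            rw [h2, map_zero]
            exact Submodule.zero_mem _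
          · right
            rw [eq_top_iff]
            intro y _
            obtain ⟨v, rfl⟩ := σ.asModuleEquiv.symm.surjective y
            have h2 : v ∈ Z := by rw [h1]; trivial
            exact (hZ v).1 h2 }
  · rw [σ.asModuleEquiv.finrank_eq]
    exact hd
  · rw [hact]
    intro hc
    exact hv0 (σ.asModuleEquiv.symm.injective hc)


end Pool.Agent.W_bda8f3_h78
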