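import Pool.Agent.W_bda8f3_h78.GapB
import Pool.Agent.W_bda8f3_h78.QuotA

/-!
The gap theorem for the quotient by the kernel of all simple modules of small dimension.
-/

set_option autoImplicit false

namespace Pool.Agent.W_bda8f3_h78

open Pool.Agent.H58_bda8f3 MonoidAlgebra

variable {k G : Type} [Field k] [Group G]

/-- Pigeonhole. The `m = card simpleDims` disjoint intervals `(2 ^ (s i), 2 ^ (s (i + 1))]`,
`i < m`, do not all meet `simpleDims k G`, because `1` lies in none of them. -/
theorem exists_gap [Finite G] (s : ℕ) :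
    ∃ β : ℕ, β ≤ s * ((simpleDims k G).ncard - 1) ∧
      ∀ d ∈ simpleDims k G, d ≤ 2 ^ s * 2 ^ β → d ≤ 2 ^ β := by
  classical
  have hfin : (simpleDims k G).Finite := simpleDims_finite
  have h1 : 1 ∈ simpleDims k G := one_mem_simpleDims
  set m := (simpleDims k G).ncard with hm
  have hm1 : m = hfin.toFinset.card := Set.ncard_eq_toFinset_card _ hfin
  have h1' : 1 ∈ hfin.toFinset := hfin.mem_toFinset.2 h1
  have hmpos : 0 < m := by
    rw [hm1]
    exact Finset.card_pos.2 ⟨1, h1'⟩
  by_contra hcon
  have hex : ∀ i : ℕ, i < m → ∃ d : ℕ, d ∈ simpleDims k G ∧ d ≤ 2 ^ (s * (i + 1)) ∧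
      2 ^ (s * i) < d := by
    intro i hi
    by_contra hne
    apply hcon
    refine ⟨s * i, Nat.mul_le_mul_left _ (by omega), fun d hd hle => ?_⟩
    by_contra hlt
    refine hne ⟨d, hd, ?_, not_le.1 hlt⟩
    calc d ≤ 2 ^ s * 2 ^ (s * i) := hle
      _ = 2 ^ (s * (i + 1)) := by rw [← pow_add]; congr 1; ring
  choose! f hf using hex
  have hcard : (Finset.range m).card ≤ (hfin.toFinset.erase 1).card := by
    refine Finset.card_le_card_of_injOn f ?_ ?_
    · intro i hi
      have hi' : i < m := by simpa using hi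
      obtain ⟨a1, a2, a3⟩ := hf i hi'
      have h2 : 1 ≤ 2 ^ (s * i) := Nat.one_le_two_pow
      exact Finset.mem_erase.2 ⟨by omega, hfin.mem_toFinset.2 a1⟩
    · have hmono : ∀ i j : ℕ, i < m → j < m → i < j → f i < f j := by
        intro i j hi hj hij
        obtain ⟨a1, a2, a3⟩ := hf i hi
        obtain ⟨b1, b2, b3⟩ := hf j hj
        have h3 : 2 ^ (s * (i + 1)) ≤ 2 ^ (s * j) :=
          Nat.pow_le_pow_right (by norm_num) (Nat.mul_le_mul_left _ (by omega))
        omega
      intro i hi j hj hij
      have hi' : i < m := by simpa using hi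
      have hj' : j < m := by simpa using hj
      rcases lt_trichotomy i j with h | h | h
      · have := hmono i j hi' hj' h
        omega
      · exact h
      · have := hmono j i hj' hi' h
        omega
  rw [Finset.card_range, Finset.card_erase_of_mem h1', ← hm1] at hcard
  omega

/-- `gap` for the quotient, with `simpleDims_quotient`. -/
theorem quot_good [Finite G] (s : ℕ) :
    ∃ β : ℕ, β ≤ s * ((simpleDims k G).ncard - 1) ∧
      Good k (G ⧸ kerDim k G (2 ^ s)) (2 ^ β) ⊤ := by
  obtain ⟨β, h1, h2⟩ := exists_gap (k := k) (G := G) s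
  refine ⟨β, h1, ?_⟩
  refine gap (x := 2 ^ s) (t := 2 ^ β) Nat.one_le_two_pow ?_ ?_
  · intro d hd hle
    exact h2 d (simpleDims_quotient (k := k) (kerDim k G (2 ^ s)) hd) hle
  · intro h hh
    exact exists_simple_quot (2 ^ s) h hh

end Pool.Agent.W_bda8f3_h78
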